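import Mathlib

/-!
# Quadratic and quartic forms on the light cone, in coordinates adapted to a cubic scroll
-/

namespace Pool.Agent.H379Z.Chess

abbrev V5 : Type := Fin 5 → ℝ

def Cone (z : V5) : Prop :=
  z 4 ^ 2 = z 0 ^ 2 + z 1 ^ 2 + 625 * z 2 ^ 2 - 350 * (z 2 * z 3) + 625 * z 3 ^ 2

def GG (z : V5) : ℝ := z 0 ^ 2 * z 2 - z 1 ^ 2 * z 3

def Lin (f : V5 → ℝ) : Prop :=
  ∃ c0 c1 c2 c3 c4 : ℝ, ∀ z, f z = c0 * z 0 + c1 * z 1 + c2 * z 2 + c3 * z 3 + c4 * z 4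

def Qd (f : V5 → ℝ) : Prop :=
  ∃ a2000 a1100 a1010 a1001 a0200 a0110 a0101 a0020 a0011 a0002 b1000 b0100 b0010 b0001 : ℝ, ∀ z, Cone z →
    f z = a2000 * (z 0 ^ 2) + a1100 * (z 0 * z 1) + a1010 * (z 0 * z 2) + a1001 * (z 0 * z 3) + a0200 * (z 1 ^ 2) + a0110 * (z 1 * z 2) + a0101 * (z 1 * z 3) + a0020 * (z 2 ^ 2) + a0011 * (z 2 * z 3) + a0002 * (z 3 ^ 2) + z 4 * (b1000 * (z 0) + b0100 * (z 1) + b0010 * (z 2) + b0001 * (z 3))

def Qt (f : V5 → ℝ) : Prop :=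
  ∃ a4000 a3100 a3010 a3001 a2200 a2110 a2101 a2020 a2011 a2002 a1300 a1210 a1201 a1120 a1111 a1102 a1030 a1021 a1012 a1003 a0400 a0310 a0301 a0220 a0211 a0202 a0130 a0121 a0112 a0103 a0040 a0031 a0022 a0013 a0004 b3000 b2100 b2010 b2001 b1200 b1110 b1101 b1020 b1011 b1002 b0300 b0210 b0201 b0120 b0111 b0102 b0030 b0021 b0012 b0003 : ℝ, ∀ z, Cone z →
    f z = a4000 * (z 0 ^ 4) + a3100 * (z 0 ^ 3 * z 1) + a3010 * (z 0 ^ 3 * z 2) + a3001 * (z 0 ^ 3 * z 3) + a2200 * (z 0 ^ 2 * z 1 ^ 2) + a2110 * (z 0 ^ 2 * z 1 * z 2) + a2101 * (z 0 ^ 2 * z 1 * z 3) + a2020 * (z 0 ^ 2 * z 2 ^ 2) + a2011 * (z 0 ^ 2 * z 2 * z 3) + a2002 * (z 0 ^ 2 * z 3 ^ 2) + a1300 * (z 0 * z 1 ^ 3) + a1210 * (z 0 * z 1 ^ 2 * z 2) + a1201 * (z 0 * z 1 ^ 2 * z 3) + a1120 * (z 0 * z 1 * z 2 ^ 2) + a1111 * (z 0 * z 1 * z 2 * z 3) + a1102 * (z 0 * z 1 * z 3 ^ 2) + a1030 * (z 0 * z 2 ^ 3) + a1021 * (z 0 * z 2 ^ 2 * z 3)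 + a1012 * (z 0 * z 2 * z 3 ^ 2) + a1003 * (z 0 * z 3 ^ 3) + a0400 * (z 1 ^ 4) + a0310 * (z 1 ^ 3 * z 2) + a0301 * (z 1 ^ 3 * z 3) + a0220 * (z 1 ^ 2 * z 2 ^ 2) + a0211 * (z 1 ^ 2 * z 2 * z 3) + a0202 * (z 1 ^ 2 * z 3 ^ 2) + a0130 * (z 1 * z 2 ^ 3) + a0121 * (z 1 * z 2 ^ 2 * z 3) + a0112 * (z 1 * z 2 * z 3 ^ 2) + a0103 * (z 1 * z 3 ^ 3) + a0040 * (z 2 ^ 4) + a0031 * (z 2 ^ 3 * z 3) + a0022 * (z 2 ^ 2 * z 3 ^ 2) + a0013 * (z 2 * z 3 ^ 3) + a0004 * (z 3 ^ 4) + z 4 * (b3000 * (z 0 ^ 3) + b2100 * (z 0 ^ 2 * z 1) + b2010 * (z 0 ^ 2 * z 2) + b2001 * (z 0 ^ 2 * z 3) + b1200 * (z 0 * z 1 ^ 2) + b1110 * (z 0 * z 1 * z 2) + b1101 * (z 0 * z 1 * z 3) + b1020 * (z 0 * z 2 ^ 2) + b1011 * (z 0 * z 2 * z 3) + b1002 * (z 0 * z 3 ^ 2) + b0300 * (z 1 ^ 3) + b0210 * (z 1 ^ 2 * z 2) + b0201 * (z 1 ^ 2 * z 3) + b0120 * (z 1 * z 2 ^ 2) + b0111 * (z 1 * z 2 * z 3) + b0102 * (z 1 * z 3 ^ 2) + b0030 * (z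 2 ^ 3) + b0021 * (z 2 ^ 2 * z 3) + b0012 * (z 2 * z 3 ^ 2) + b0003 * (z 3 ^ 3))

theorem Lin.mul {f g : V5 → ℝ} (hf : Lin f) (hg : Lin g) : Qd (fun z => f z * g z) := by
  obtain ⟨c0, c1, c2, c3, c4, hf⟩ := hf
  obtain ⟨d0, d1, d2, d3, d4, hg⟩ := hg
  refine ⟨c0 * d0 + c4 * d4,
    c0 * d1 + c1 * d0,
    c0 * d2 + c2 * d0,
    c0 * d3 + c3 * d0,
    c1 * d1 + c4 * d4,
    c1 * d2 + c2 * d1,
    c1 * d3 + c3 * d1,
    c2 * d2 + (625) * (c4 * d4),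
    c2 * d3 + c3 * d2 + (-350) * (c4 * d4),
    c3 * d3 + (625) * (c4 * d4),
    c0 * d4 + c4 * d0,
    c1 * d4 + c4 * d1,
    c2 * d4 + c4 * d2,
    c3 * d4 + c4 * d3,
    fun z hz => ?_⟩
  simp only [hf z, hg z]
  unfold Cone at hz
  linear_combination (c4 * d4) * hz

theorem Cone.smul {z : V5} (hz : Cone z) (k : ℝ) : Cone (k • z) := by
  unfold Cone at *
  simp only [Pi.smul_apply, smul_eq_mul]
  linear_combination k ^ 2 * hz

theorem Qd.add {f g : V5 → ℝ} (hf : Qd f) (hg : Qd g) : Qd (fun z => f z + g z) := by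
  obtain ⟨a2000, a1100, a1010, a1001, a0200, a0110, a0101, a0020, a0011, a0002, b1000, b0100, b0010, b0001, hf⟩ := hf
  obtain ⟨c2000, c1100, c1010, c1001, c0200, c0110, c0101, c0020, c0011, c0002, d1000, d0100, d0010, d0001, hg⟩ := hg
  refine ⟨a2000 + c2000, a1100 + c1100, a1010 + c1010, a1001 + c1001, a0200 + c0200, a0110 + c0110, a0101 + c0101, a0020 + c0020, a0011 + c0011, a0002 + c0002, b1000 + d1000, b0100 + d0100, b0010 + d0010, b0001 + d0001, fun z hz => ?_⟩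
  simp only [hf z hz, hg z hz]
  ring

theorem Qd.smul {f : V5 → ℝ} (k : ℝ) (hf : Qd f) : Qd (fun z => k * f z) := by
  obtain ⟨a2000, a1100, a1010, a1001, a0200, a0110, a0101, a0020, a0011, a0002, b1000, b0100, b0010, b0001, hf⟩ := hf
  refine ⟨k * a2000, k * a1100, k * a1010, k * a1001, k * a0200, k * a0110, k * a0101, k * a0020, k * a0011, k * a0002, k * b1000, k * b0100, k * b0010, k * b0001, fun z hz => ?_⟩
  simp only [hf z hz]
  ring

theorem Qd.homog {f : V5 → ℝ} (hf : Qd f) (k : ℝ) {z : V5} (hz : Cone z) :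
    f (k • z) = k ^ 2 * f z := by
  obtain ⟨a2000, a1100, a1010, a1001, a0200, a0110, a0101, a0020, a0011, a0002, b1000, b0100, b0010, b0001, hf⟩ := hf
  rw [hf z hz, hf _ (hz.smul k)]
  simp only [Pi.smul_apply, smul_eq_mul]
  ring

theorem Qt.add {f g : V5 → ℝ} (hf : Qt f) (hg : Qt g) : Qt (fun z => f z + g z) := by
  obtain ⟨a4000, a3100, a3010, a3001, a2200, a2110, a2101, a2020, a2011, a2002, a1300, a1210, a1201, a1120, a1111, a1102, a1030, a1021, a1012, a1003, a0400, a0310, a0301, a0220, a0211, a0202, a0130, a0121, a0112, a0103, a0040, a0031, a0022, a0013, a0004, b3000, b2100, b2010, b2001, b1200, b1110, b1101, b1020, b1011, b1002, b0300, b0210, b0201, b0120, b0111, b0102, b0030, b0021, b0012, b0003, hf⟩ := hf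
  obtain ⟨c4000, c3100, c3010, c3001, c2200, c2110, c2101, c2020, c2011, c2002, c1300, c1210, c1201, c1120, c1111, c1102, c1030, c1021, c1012, c1003, c0400, c0310, c0301, c0220, c0211, c0202, c0130, c0121, c0112, c0103, c0040, c0031, c0022, c0013, c0004, d3000, d2100, d2010, d2001, d1200, d1110, d1101, d1020, d1011, d1002, d0300, d0210, d0201, d0120, d0111, d0102, d0030, d0021, d0012, d0003, hg⟩ := hg
  refine ⟨a4000 + c4000, a3100 + c3100, a3010 + c3010, a3001 + c3001, a2200 + c2200, a2110 + c2110, a2101 + c2101, a2020 + c2020, a2011 + c2011, a2002 + c2002, a1300 + c1300, a1210 + c1210, a1201 + c1201, a1120 + c1120, a1111 + c1111, a1102 + c1102, a1030 + c1030, a1021 + c1021, a1012 + c1012, a1003 + c1003, a0400 + c0400, a0310 + c0310, a0301 + c0301, a0220 + c0220, a0211 + c0211, a0202 + c0202, a0130 + c0130, a0121 + c0121, a0112 + c0112, a0103 + c0103, a0040 + c0040, a0031 + c0031,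 a0022 + c0022, a0013 + c0013, a0004 + c0004, b3000 + d3000, b2100 + d2100, b2010 + d2010, b2001 + d2001, b1200 + d1200, b1110 + d1110, b1101 + d1101, b1020 + d1020, b1011 + d1011, b1002 + d1002, b0300 + d0300, b0210 + d0210, b0201 + d0201, b0120 + d0120, b0111 + d0111, b0102 + d0102, b0030 + d0030, b0021 + d0021, b0012 + d0012, b0003 + d0003, fun z hz => ?_⟩
  simp only [hf z hz, hg z hz]
  ring

theorem Qt.smul {f : V5 → ℝ} (k : ℝ) (hf : Qt f) : Qt (fun z => k * f z) := by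
  obtain ⟨a4000, a3100, a3010, a3001, a2200, a2110, a2101, a2020, a2011, a2002, a1300, a1210, a1201, a1120, a1111, a1102, a1030, a1021, a1012, a1003, a0400, a0310, a0301, a0220, a0211, a0202, a0130, a0121, a0112, a0103, a0040, a0031, a0022, a0013, a0004, b3000, b2100, b2010, b2001, b1200, b1110, b1101, b1020, b1011, b1002, b0300, b0210, b0201, b0120, b0111, b0102, b0030, b0021, b0012, b0003, hf⟩ := hf
  refine ⟨k * a4000, k * a3100, k * a3010, k * a3001, k * a2200, k * a2110, k * a2101, k * a2020, k * a2011, k * a2002, k * a1300, k * a1210, k * a1201, k * a1120, k * a1111, k * a1102, k * a1030, k * a1021, k * a1012, k * a1003, k * a0400, k * a0310, k * a0301, k * a0220, k * a0211, k * a0202, k * a0130, k * a0121, k * a0112, k * a0103, k * a0040, k * a0031, k * a0022, k * a0013, k * a0004, k * b3000, k * b2100, k * b2010, k * b2001, k * b1200, k * b1110, k * b1101, k * b1020, k *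 b1011, k * b1002, k * b0300, k * b0210, k * b0201, k * b0120, k * b0111, k * b0102, k * b0030, k * b0021, k * b0012, k * b0003, fun z hz => ?_⟩
  simp only [hf z hz]
  ring

theorem Qt.homog {f : V5 → ℝ} (hf : Qt f) (k : ℝ) {z : V5} (hz : Cone z) :
    f (k • z) = k ^ 4 * f z := by
  obtain ⟨a4000, a3100, a3010, a3001, a2200, a2110, a2101, a2020, a2011, a2002, a1300, a1210, a1201, a1120, a1111, a1102, a1030, a1021, a1012, a1003, a0400, a0310, a0301, a0220, a0211, a0202, a0130, a0121, a0112, a0103, a0040, a0031, a0022, a0013, a0004, b3000, b2100, b2010, b2001, b1200, b1110, b1101, b1020, b1011, b1002, b0300, b0210, b0201, b0120, b0111, b0102, b0030, b0021, b0012, b0003, hf⟩ := hf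
  rw [hf z hz, hf _ (hz.smul k)]
  simp only [Pi.smul_apply, smul_eq_mul]
  ring

theorem Qd.mul {f g : V5 → ℝ} (hf : Qd f) (hg : Qd g) : Qt (fun z => f z * g z) := by
  obtain ⟨a2000, a1100, a1010, a1001, a0200, a0110, a0101, a0020, a0011, a0002, b1000, b0100, b0010, b0001, hf⟩ := hf
  obtain ⟨c2000, c1100, c1010, c1001, c0200, c0110, c0101, c0020, c0011, c0002, d1000, d0100, d0010, d0001, hg⟩ := hg
  refine ⟨a2000 * c2000 + b1000 * d1000,
    a2000 * c1100 + a1100 * c2000 + b1000 * d0100 + b0100 * d1000,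
    a2000 * c1010 + a1010 * c2000 + b1000 * d0010 + b0010 * d1000,
    a2000 * c1001 + a1001 * c2000 + b1000 * d0001 + b0001 * d1000,
    a2000 * c0200 + a1100 * c1100 + a0200 * c2000 + b1000 * d1000 + b0100 * d0100,
    a2000 * c0110 + a1100 * c1010 + a1010 * c1100 + a0110 * c2000 + b0100 * d0010 + b0010 * d0100,
    a2000 * c0101 + a1100 * c1001 + a1001 * c1100 + a0101 * c2000 + b0100 * d0001 + b0001 * d0100,
    a2000 * c0020 + a1010 * c1010 + a0020 * c2000 + (625) * (b1000 * d1000) + b0010 * d0010,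
    a2000 * c0011 + a1010 * c1001 + a1001 * c1010 + a0011 * c2000 + (-350) * (b1000 * d1000) + b0010 * d0001 + b0001 * d0010,
    a2000 * c0002 + a1001 * c1001 + a0002 * c2000 + (625) * (b1000 * d1000) + b0001 * d0001,
    a1100 * c0200 + a0200 * c1100 + b1000 * d0100 + b0100 * d1000,
    a1100 * c0110 + a1010 * c0200 + a0200 * c1010 + a0110 * c1100 + b1000 * d0010 + b0010 * d1000,
    a1100 * c0101 + a1001 * c0200 + a0200 * c1001 + a0101 * c1100 + b1000 * d0001 + b0001 * d1000,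
    a1100 * c0020 + a1010 * c0110 + a0110 * c1010 + a0020 * c1100 + (625) * (b1000 * d0100) + (625) * (b0100 * d1000),
    a1100 * c0011 + a1010 * c0101 + a1001 * c0110 + a0110 * c1001 + a0101 * c1010 + a0011 * c1100 + (-350) * (b1000 * d0100) + (-350) * (b0100 * d1000),
    a1100 * c0002 + a1001 * c0101 + a0101 * c1001 + a0002 * c1100 + (625) * (b1000 * d0100) + (625) * (b0100 * d1000),
    a1010 * c0020 + a0020 * c1010 + (625) * (b1000 * d0010) + (625) * (b0010 * d1000),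
    a1010 * c0011 + a1001 * c0020 + a0020 * c1001 + a0011 * c1010 + (-350) * (b1000 * d0010) + (625) * (b1000 * d0001) + (-350) * (b0010 * d1000) + (625) * (b0001 * d1000),
    a1010 * c0002 + a1001 * c0011 + a0011 * c1001 + a0002 * c1010 + (625) * (b1000 * d0010) + (-350) * (b1000 * d0001) + (625) * (b0010 * d1000) + (-350) * (b0001 * d1000),
    a1001 * c0002 + a0002 * c1001 + (625) * (b1000 * d0001) + (625) * (b0001 * d1000),
    a0200 * c0200 + b0100 * d0100,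
    a0200 * c0110 + a0110 * c0200 + b0100 * d0010 + b0010 * d0100,
    a0200 * c0101 + a0101 * c0200 + b0100 * d0001 + b0001 * d0100,
    a0200 * c0020 + a0110 * c0110 + a0020 * c0200 + (625) * (b0100 * d0100) + b0010 * d0010,
    a0200 * c0011 + a0110 * c0101 + a0101 * c0110 + a0011 * c0200 + (-350) * (b0100 * d0100) + b0010 * d0001 + b0001 * d0010,
    a0200 * c0002 + a0101 * c0101 + a0002 * c0200 + (625) * (b0100 * d0100) + b0001 * d0001,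
    a0110 * c0020 + a0020 * c0110 + (625) * (b0100 * d0010) + (625) * (b0010 * d0100),
    a0110 * c0011 + a0101 * c0020 + a0020 * c0101 + a0011 * c0110 + (-350) * (b0100 * d0010) + (625) * (b0100 * d0001) + (-350) * (b0010 * d0100) + (625) * (b0001 * d0100),
    a0110 * c0002 + a0101 * c0011 + a0011 * c0101 + a0002 * c0110 + (625) * (b0100 * d0010) + (-350) * (b0100 * d0001) + (625) * (b0010 * d0100) + (-350) * (b0001 * d0100),
    a0101 * c0002 + a0002 * c0101 + (625) * (b0100 * d0001) + (625) * (b0001 * d0100),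
    a0020 * c0020 + (625) * (b0010 * d0010),
    a0020 * c0011 + a0011 * c0020 + (-350) * (b0010 * d0010) + (625) * (b0010 * d0001) + (625) * (b0001 * d0010),
    a0020 * c0002 + a0011 * c0011 + a0002 * c0020 + (625) * (b0010 * d0010) + (-350) * (b0010 * d0001) + (-350) * (b0001 * d0010) + (625) * (b0001 * d0001),
    a0011 * c0002 + a0002 * c0011 + (625) * (b0010 * d0001) + (625) * (b0001 * d0010) + (-350) * (b0001 * d0001),
    a0002 * c0002 + (625) * (b0001 * d0001),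
    a2000 * d1000 + b1000 * c2000,
    a2000 * d0100 + a1100 * d1000 + b1000 * c1100 + b0100 * c2000,
    a2000 * d0010 + a1010 * d1000 + b1000 * c1010 + b0010 * c2000,
    a2000 * d0001 + a1001 * d1000 + b1000 * c1001 + b0001 * c2000,
    a1100 * d0100 + a0200 * d1000 + b1000 * c0200 + b0100 * c1100,
    a1100 * d0010 + a1010 * d0100 + a0110 * d1000 + b1000 * c0110 + b0100 * c1010 + b0010 * c1100,
    a1100 * d0001 + a1001 * d0100 + a0101 * d1000 + b1000 * c0101 + b0100 * c1001 + b0001 * c1100,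
    a1010 * d0010 + a0020 * d1000 + b1000 * c0020 + b0010 * c1010,
    a1010 * d0001 + a1001 * d0010 + a0011 * d1000 + b1000 * c0011 + b0010 * c1001 + b0001 * c1010,
    a1001 * d0001 + a0002 * d1000 + b1000 * c0002 + b0001 * c1001,
    a0200 * d0100 + b0100 * c0200,
    a0200 * d0010 + a0110 * d0100 + b0100 * c0110 + b0010 * c0200,
    a0200 * d0001 + a0101 * d0100 + b0100 * c0101 + b0001 * c0200,
    a0110 * d0010 + a0020 * d0100 + b0100 * c0020 + b0010 * c0110,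
    a0110 * d0001 + a0101 * d0010 + a0011 * d0100 + b0100 * c0011 + b0010 * c0101 + b0001 * c0110,
    a0101 * d0001 + a0002 * d0100 + b0100 * c0002 + b0001 * c0101,
    a0020 * d0010 + b0010 * c0020,
    a0020 * d0001 + a0011 * d0010 + b0010 * c0011 + b0001 * c0020,
    a0011 * d0001 + a0002 * d0010 + b0010 * c0002 + b0001 * c0011,
    a0002 * d0001 + b0001 * c0002,
    fun z hz => ?_⟩
  simp only [hf z hz, hg z hz]
  unfold Cone at hz
  linear_combination ((b1000 * (z 0) + b0100 * (z 1) + b0010 * (z 2) + b0001 * (z 3)) * (d1000 * (z 0) + d0100 * (z 1) + d0010 * (z 2) + d0001 * (z 3))) * hz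

/-- Nine points over the ruling with parameter `t`, up to scaling. -/
def Nine (t : ℝ) (P : V5 → Prop) : Prop :=
  (∀ ε σ : ℝ, ε ^ 2 = 1 → σ ^ 2 = 1 →
    (∃ k : ℝ, k ≠ 0 ∧ P (k • ![σ * (60 * ε), σ * (60 * ε * t), σ * t ^ 2, σ, 65 + 25 * t ^ 2])) ∧
    (∃ k : ℝ, k ≠ 0 ∧
      P (k • ![σ * (60 * ε * t), σ * (60 * ε * t ^ 2), σ * t ^ 2, σ, 25 + 65 * t ^ 2]))) ∧
  ∃ x : ℝ, x ^ 2 = 1 + t ^ 2 ∧ ∃ k : ℝ, k ≠ 0 ∧ P (k • ![1, t, 0, 0, x])

theorem coeffs_zero {S : Set ℝ} (hS : S.Infinite) (c0 c1 c2 c3 c4 c5 c6 c7 c8 : ℝ)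
    (h : ∀ t ∈ S, c0 + c1 * t + c2 * t ^ 2 + c3 * t ^ 3 + c4 * t ^ 4 + c5 * t ^ 5 + c6 * t ^ 6 +
      c7 * t ^ 7 + c8 * t ^ 8 = 0) :
    c0 = 0 ∧ c1 = 0 ∧ c2 = 0 ∧ c3 = 0 ∧ c4 = 0 ∧ c5 = 0 ∧ c6 = 0 ∧ c7 = 0 ∧ c8 = 0 := by
  have hp : (Polynomial.monomial 0 c0 + Polynomial.monomial 1 c1 + Polynomial.monomial 2 c2 +
      Polynomial.monomial 3 c3 + Polynomial.monomial 4 c4 + Polynomial.monomial 5 c5 +
      Polynomial.monomial 6 c6 + Polynomial.monomial 7 c7 + Polynomial.monomial 8 c8 :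
      Polynomial ℝ) = 0 := by
    apply Polynomial.eq_zero_of_infinite_isRoot
    refine hS.mono fun t ht => ?_
    have := h t ht
    simp only [Set.mem_setOf_eq, Polynomial.IsRoot.def, Polynomial.eval_add,
      Polynomial.eval_monomial]
    linear_combination this
  have hc : ∀ n, _ := fun n => congrArg (fun p => Polynomial.coeff p n) hp
  have h0 := hc 0
  have h1 := hc 1
  have h2 := hc 2
  have h3 := hc 3
  have h4 := hc 4
  have h5 := hc 5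
  have h6 := hc 6
  have h7 := hc 7
  have h8 := hc 8
  simp [Polynomial.coeff_monomial] at h0 h1 h2 h3 h4 h5 h6 h7 h8
  exact ⟨h0, h1, h2, h3, h4, h5, h6, h7, h8⟩

theorem nine_vals {d : ℕ} {f : V5 → ℝ}
    (hh : ∀ (k : ℝ) {z : V5}, Cone z → f (k • z) = k ^ d * f z) {t : ℝ}
    (h : Nine t (fun z => f z = 0)) :
    (∀ ε σ : ℝ, ε ^ 2 = 1 → σ ^ 2 = 1 →
      (Cone ![σ * (60 * ε), σ * (60 * ε * t), σ * t ^ 2, σ, 65 + 25 * t ^ 2] ∧
      f ![σ * (60 * ε), σ * (60 * ε * t), σ * t ^ 2, σ, 65 + 25 * t ^ 2] = 0) ∧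
      (Cone ![σ * (60 * ε * t), σ * (60 * ε * t ^ 2), σ * t ^ 2, σ, 25 + 65 * t ^ 2] ∧
      f ![σ * (60 * ε * t), σ * (60 * ε * t ^ 2), σ * t ^ 2, σ, 25 + 65 * t ^ 2] = 0)) ∧
    ∃ x : ℝ, Cone ![1, t, 0, 0, x] ∧ f ![1, t, 0, 0, x] = 0 := by
  have key : ∀ z : V5, Cone z → (∃ k : ℝ, k ≠ 0 ∧ f (k • z) = 0) → Cone z ∧ f z = 0 := by
    rintro z hz ⟨k, hk, h⟩
    rw [hh k hz] at h
    exact ⟨hz, (mul_eq_zero.1 h).resolve_left (pow_ne_zero _ hk)⟩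
  refine ⟨fun ε σ he hs => ⟨key _ ?_ (h.1 ε σ he hs).1, key _ ?_ (h.1 ε σ he hs).2⟩, ?_⟩
  · simp only [Cone, Matrix.cons_val]
    linear_combination (-(3600 * (1 + t ^ 2) * σ ^ 2)) * he -
      (3600 * (1 + t ^ 2) + 625 * t ^ 4 - 350 * t ^ 2 + 625) * hs
  · simp only [Cone, Matrix.cons_val]
    linear_combination (-(3600 * t ^ 2 * (1 + t ^ 2) * σ ^ 2)) * he -
      (3600 * t ^ 2 * (1 + t ^ 2) + 625 * t ^ 4 - 350 * t ^ 2 + 625) * hs
  · obtain ⟨x, hx, h⟩ := h.2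
    refine ⟨x, key _ ?_ h⟩
    simp only [Cone, Matrix.cons_val]
    linear_combination hx

theorem bin_solve {t p0 p1 p2 p3 p4 r0 r1 r2 r3 X Y x : ℝ} (ht0 : 0 < t) (ht1 : t < 1)
    (hX : 0 < X) (hY : 0 < Y)
    (h1 : ∀ ε σ : ℝ, ε ^ 2 = 1 → σ ^ 2 = 1 →
      p0 + p1 * (60 * ε) + p2 * (60 * ε) ^ 2 + p3 * (60 * ε) ^ 3 + p4 * (60 * ε) ^ 4 +
        σ * X * (r0 + r1 * (60 * ε) + r2 * (60 * ε) ^ 2 + r3 * (60 * ε) ^ 3) = 0)
    (h2 : ∀ ε σ : ℝ, ε ^ 2 = 1 → σ ^ 2 = 1 →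
      p0 + p1 * (60 * ε * t) + p2 * (60 * ε * t) ^ 2 + p3 * (60 * ε * t) ^ 3 +
        p4 * (60 * ε * t) ^ 4 +
        σ * Y * (r0 + r1 * (60 * ε * t) + r2 * (60 * ε * t) ^ 2 + r3 * (60 * ε * t) ^ 3) = 0)
    (h3 : p4 + x * r3 = 0) :
    p0 = 0 ∧ p1 = 0 ∧ p2 = 0 ∧ p3 = 0 ∧ p4 = 0 ∧ r0 = 0 ∧ r1 = 0 ∧ r2 = 0 ∧ r3 = 0 := by
  have a1 := h1 1 1 (by norm_num) (by norm_num)
  have a2 := h1 1 (-1) (by norm_num) (by norm_num)
  have a3 := h1 (-1) 1 (by norm_num) (by norm_num)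
  have a4 := h1 (-1) (-1) (by norm_num) (by norm_num)
  have b1 := h2 1 1 (by norm_num) (by norm_num)
  have b2 := h2 1 (-1) (by norm_num) (by norm_num)
  have b3 := h2 (-1) 1 (by norm_num) (by norm_num)
  have b4 := h2 (-1) (-1) (by norm_num) (by norm_num)
  have ht : 1 - t ^ 2 ≠ 0 := by nlinarith
  have e1 : r0 + r2 * 3600 = 0 := by
    apply mul_left_cancel₀ hX.ne'
    linear_combination (a1 - a2 + a3 - a4) / 4
  have e2 : r1 + r3 * 3600 = 0 := by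
    apply mul_left_cancel₀ hX.ne'
    linear_combination (a1 - a2 - a3 + a4) / 240
  have e3 : r0 + r2 * 3600 * t ^ 2 = 0 := by
    apply mul_left_cancel₀ hY.ne'
    linear_combination (b1 - b2 + b3 - b4) / 4
  have e4 : r1 + r3 * 3600 * t ^ 2 = 0 := by
    apply mul_left_cancel₀ (mul_pos hY ht0).ne'
    linear_combination (b1 - b2 - b3 + b4) / 240
  have r2z : r2 = 0 := by
    apply mul_left_cancel₀ ht
    linear_combination (e1 - e3) / 3600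
  have r3z : r3 = 0 := by
    apply mul_left_cancel₀ ht
    linear_combination (e2 - e4) / 3600
  have p4z : p4 = 0 := by rw [r3z] at h3; linarith
  have f2 : p1 + p3 * 3600 = 0 := by linear_combination (a1 + a2 - a3 - a4) / 240
  have f4 : p1 + p3 * 3600 * t ^ 2 = 0 := by
    apply mul_left_cancel₀ ht0.ne'
    linear_combination (b1 + b2 - b3 - b4) / 240
  have f1 : p0 + p2 * 3600 = 0 := by
    linear_combination (a1 + a2 + a3 + a4) / 4 - 60 ^ 4 * p4z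
  have f3 : p0 + p2 * 3600 * t ^ 2 = 0 := by
    linear_combination (b1 + b2 + b3 + b4) / 4 - 60 ^ 4 * t ^ 4 * p4z
  have p2z : p2 = 0 := by
    apply mul_left_cancel₀ ht
    linear_combination (f1 - f3) / 3600
  have p3z : p3 = 0 := by
    apply mul_left_cancel₀ ht
    linear_combination (f2 - f4) / 3600
  refine ⟨by linarith, by linarith, p2z, p3z, p4z, by linarith, by linarith, r2z, r3z⟩

theorem sq_eq_one_iff_of_ne_zero' {σ : ℝ} (h : σ ^ 2 = 1) : σ = 1 ∨ σ = -1 := by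
  have : (σ - 1) * (σ + 1) = 0 := by linear_combination h
  rcases mul_eq_zero.1 this with h | h
  · left; linarith
  · right; linarith

theorem Qd.van {f : V5 → ℝ} (hf : Qd f) {S : Set ℝ} (hS : S.Infinite)
    (hS1 : ∀ t ∈ S, 0 < t ∧ t < 1) (h : ∀ t ∈ S, Nine t (fun z => f z = 0)) :
    ∀ z, Cone z → f z = 0 := by
  have hh := fun k z hz => hf.homog k (z := z) hz
  obtain ⟨a2000, a1100, a1010, a1001, a0200, a0110, a0101, a0020, a0011, a0002, b1000, b0100, b0010, b0001, hf⟩ := hf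
  have key : ∀ t ∈ S, (0 : ℝ) = 0 ∧
      (0 : ℝ) = 0 ∧
      (a0002) + (0) * t + (a0011) * t ^ 2 + (0) * t ^ 3 + (a0020) * t ^ 4 + (0) * t ^ 5 + (0) * t ^ 6 + (0) * t ^ 7 + (0) * t ^ 8 = 0 ∧
      (a1001) + (a0101) * t + (a1010) * t ^ 2 + (a0110) * t ^ 3 + (0) * t ^ 4 + (0) * t ^ 5 + (0) * t ^ 6 + (0) * t ^ 7 + (0) * t ^ 8 = 0 ∧
      (a2000) + (a1100) * t + (a0200) * t ^ 2 + (0) * t ^ 3 + (0) * t ^ 4 + (0) * t ^ 5 + (0) * t ^ 6 + (0) * t ^ 7 + (0) * t ^ 8 = 0 ∧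
      (0 : ℝ) = 0 ∧
      (0 : ℝ) = 0 ∧
      (b0001) + (0) * t + (b0010) * t ^ 2 + (0) * t ^ 3 + (0) * t ^ 4 + (0) * t ^ 5 + (0) * t ^ 6 + (0) * t ^ 7 + (0) * t ^ 8 = 0 ∧
      (b1000) + (b0100) * t + (0) * t ^ 2 + (0) * t ^ 3 + (0) * t ^ 4 + (0) * t ^ 5 + (0) * t ^ 6 + (0) * t ^ 7 + (0) * t ^ 8 = 0 := by
    intro t ht
    obtain ⟨h1, x, hx, h3⟩ := nine_vals (fun k z hz => hh k z hz) (h t ht)
    refine bin_solve (x := x) (X := 65 + 25 * t ^ 2) (Y := 25 + 65 * t ^ 2) (hS1 t ht).1 (hS1 t ht).2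
      (by positivity) (by positivity) (fun ε σ he hs => ?_) (fun ε σ he hs => ?_) ?_
    · have e := (h1 ε σ he hs).1.2
      rw [hf _ (h1 ε σ he hs).1.1] at e
      simp only [Matrix.cons_val] at e
      rcases sq_eq_one_iff_of_ne_zero' hs with rfl | rfl
      · linear_combination (60 * ε) ^ 2 * e
      · linear_combination (60 * ε) ^ 2 * e
    · have e := (h1 ε σ he hs).2.2
      rw [hf _ (h1 ε σ he hs).2.1] at e
      simp only [Matrix.cons_val] at e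
      rcases sq_eq_one_iff_of_ne_zero' hs with rfl | rfl
      · linear_combination (60 * ε * t) ^ 2 * e
      · linear_combination (60 * ε * t) ^ 2 * e
    · rw [hf _ hx] at h3
      simp only [Matrix.cons_val] at h3
      linear_combination h3
  obtain ⟨e20, e21, e22, e23, e24, e25, e26, e27, e28⟩ := coeffs_zero hS (a0002) (0) (a0011) (0) (a0020) (0) (0) (0) (0)
    (fun t ht => (key t ht).2.2.1)
  obtain ⟨e30, e31, e32, e33, e34, e35, e36, e37, e38⟩ := coeffs_zero hS (a1001) (a0101) (a1010) (a0110) (0) (0) (0) (0) (0)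
    (fun t ht => (key t ht).2.2.2.1)
  obtain ⟨e40, e41, e42, e43, e44, e45, e46, e47, e48⟩ := coeffs_zero hS (a2000) (a1100) (a0200) (0) (0) (0) (0) (0) (0)
    (fun t ht => (key t ht).2.2.2.2.1)
  obtain ⟨e70, e71, e72, e73, e74, e75, e76, e77, e78⟩ := coeffs_zero hS (b0001) (0) (b0010) (0) (0) (0) (0) (0) (0)
    (fun t ht => (key t ht).2.2.2.2.2.2.2.1)
  obtain ⟨e80, e81, e82, e83, e84, e85, e86, e87, e88⟩ := coeffs_zero hS (b1000) (b0100) (0) (0) (0) (0) (0) (0) (0)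
    (fun t ht => (key t ht).2.2.2.2.2.2.2.2)
  intro z hz
  rw [hf z hz]
  linear_combination (z 3 ^ 2) * e20 +
    (z 2 * z 3) * e22 +
    (z 2 ^ 2) * e24 +
    (z 0 * z 3) * e30 +
    (z 1 * z 3) * e31 +
    (z 0 * z 2) * e32 +
    (z 1 * z 2) * e33 +
    (z 0 ^ 2) * e40 +
    (z 0 * z 1) * e41 +
    (z 1 ^ 2) * e42 +
    z 4 * (z 3) * e70 +
    z 4 * (z 2) * e72 +
    z 4 * (z 0) * e80 +
    z 4 * (z 1) * e81

theorem Qt.van {f : V5 → ℝ} (hf : Qt f) {S : Set ℝ} (hS : S.Infinite)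
    (hS1 : ∀ t ∈ S, 0 < t ∧ t < 1) (h : ∀ t ∈ S, Nine t (fun z => f z = 0)) :
    ∃ l, Lin l ∧ ∀ z, Cone z → f z = GG z * l z := by
  have hh := fun k z hz => hf.homog k (z := z) hz
  obtain ⟨a4000, a3100, a3010, a3001, a2200, a2110, a2101, a2020, a2011, a2002, a1300, a1210, a1201, a1120, a1111, a1102, a1030, a1021, a1012, a1003, a0400, a0310, a0301, a0220, a0211, a0202, a0130, a0121, a0112, a0103, a0040, a0031, a0022, a0013, a0004, b3000, b2100, b2010, b2001, b1200, b1110, b1101, b1020, b1011, b1002, b0300, b0210, b0201, b0120, b0111, b0102, b0030, b0021, b0012, b0003, hf⟩ := hf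
  have key : ∀ t ∈ S, (a0004) + (0) * t + (a0013) * t ^ 2 + (0) * t ^ 3 + (a0022) * t ^ 4 + (0) * t ^ 5 + (a0031) * t ^ 6 + (0) * t ^ 7 + (a0040) * t ^ 8 = 0 ∧
      (a1003) + (a0103) * t + (a1012) * t ^ 2 + (a0112) * t ^ 3 + (a1021) * t ^ 4 + (a0121) * t ^ 5 + (a1030) * t ^ 6 + (a0130) * t ^ 7 + (0) * t ^ 8 = 0 ∧
      (a2002) + (a1102) * t + (a2011 + a0202) * t ^ 2 + (a1111) * t ^ 3 + (a2020 + a0211) * t ^ 4 + (a1120) * t ^ 5 + (a0220) * t ^ 6 + (0) * t ^ 7 + (0) * t ^ 8 = 0 ∧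
      (a3001) + (a2101) * t + (a3010 + a1201) * t ^ 2 + (a2110 + a0301) * t ^ 3 + (a1210) * t ^ 4 + (a0310) * t ^ 5 + (0) * t ^ 6 + (0) * t ^ 7 + (0) * t ^ 8 = 0 ∧
      (a4000) + (a3100) * t + (a2200) * t ^ 2 + (a1300) * t ^ 3 + (a0400) * t ^ 4 + (0) * t ^ 5 + (0) * t ^ 6 + (0) * t ^ 7 + (0) * t ^ 8 = 0 ∧
      (b0003) + (0) * t + (b0012) * t ^ 2 + (0) * t ^ 3 + (b0021) * t ^ 4 + (0) * t ^ 5 + (b0030) * t ^ 6 + (0) * t ^ 7 + (0) * t ^ 8 = 0 ∧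
      (b1002) + (b0102) * t + (b1011) * t ^ 2 + (b0111) * t ^ 3 + (b1020) * t ^ 4 + (b0120) * t ^ 5 + (0) * t ^ 6 + (0) * t ^ 7 + (0) * t ^ 8 = 0 ∧
      (b2001) + (b1101) * t + (b2010 + b0201) * t ^ 2 + (b1110) * t ^ 3 + (b0210) * t ^ 4 + (0) * t ^ 5 + (0) * t ^ 6 + (0) * t ^ 7 + (0) * t ^ 8 = 0 ∧
      (b3000) + (b2100) * t + (b1200) * t ^ 2 + (b0300) * t ^ 3 + (0) * t ^ 4 + (0) * t ^ 5 + (0) * t ^ 6 + (0) * t ^ 7 + (0) * t ^ 8 = 0 := by
    intro t ht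
    obtain ⟨h1, x, hx, h3⟩ := nine_vals (fun k z hz => hh k z hz) (h t ht)
    refine bin_solve (x := x) (X := 65 + 25 * t ^ 2) (Y := 25 + 65 * t ^ 2) (hS1 t ht).1 (hS1 t ht).2
      (by positivity) (by positivity) (fun ε σ he hs => ?_) (fun ε σ he hs => ?_) ?_
    · have e := (h1 ε σ he hs).1.2
      rw [hf _ (h1 ε σ he hs).1.1] at e
      simp only [Matrix.cons_val] at e
      rcases sq_eq_one_iff_of_ne_zero' hs with rfl | rfl
      · linear_combination (60 * ε) ^ 0 * e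
      · linear_combination (60 * ε) ^ 0 * e
    · have e := (h1 ε σ he hs).2.2
      rw [hf _ (h1 ε σ he hs).2.1] at e
      simp only [Matrix.cons_val] at e
      rcases sq_eq_one_iff_of_ne_zero' hs with rfl | rfl
      · linear_combination (60 * ε * t) ^ 0 * e
      · linear_combination (60 * ε * t) ^ 0 * e
    · rw [hf _ hx] at h3
      simp only [Matrix.cons_val] at h3
      linear_combination h3
  obtain ⟨e00, e01, e02, e03, e04, e05, e06, e07, e08⟩ := coeffs_zero hS (a0004) (0) (a0013) (0) (a0022) (0) (a0031) (0) (a0040)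
    (fun t ht => (key t ht).1)
  obtain ⟨e10, e11, e12, e13, e14, e15, e16, e17, e18⟩ := coeffs_zero hS (a1003) (a0103) (a1012) (a0112) (a1021) (a0121) (a1030) (a0130) (0)
    (fun t ht => (key t ht).2.1)
  obtain ⟨e20, e21, e22, e23, e24, e25, e26, e27, e28⟩ := coeffs_zero hS (a2002) (a1102) (a2011 + a0202) (a1111) (a2020 + a0211) (a1120) (a0220) (0) (0)
    (fun t ht => (key t ht).2.2.1)
  obtain ⟨e30, e31, e32, e33, e34, e35, e36, e37, e38⟩ := coeffs_zero hS (a3001) (a2101) (a3010 + a1201) (a2110 + a0301) (a1210) (a0310) (0) (0) (0)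
    (fun t ht => (key t ht).2.2.2.1)
  obtain ⟨e40, e41, e42, e43, e44, e45, e46, e47, e48⟩ := coeffs_zero hS (a4000) (a3100) (a2200) (a1300) (a0400) (0) (0) (0) (0)
    (fun t ht => (key t ht).2.2.2.2.1)
  obtain ⟨e50, e51, e52, e53, e54, e55, e56, e57, e58⟩ := coeffs_zero hS (b0003) (0) (b0012) (0) (b0021) (0) (b0030) (0) (0)
    (fun t ht => (key t ht).2.2.2.2.2.1)
  obtain ⟨e60, e61, e62, e63, e64, e65, e66, e67, e68⟩ := coeffs_zero hS (b1002) (b0102) (b1011) (b0111) (b1020) (b0120) (0) (0) (0)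
    (fun t ht => (key t ht).2.2.2.2.2.2.1)
  obtain ⟨e70, e71, e72, e73, e74, e75, e76, e77, e78⟩ := coeffs_zero hS (b2001) (b1101) (b2010 + b0201) (b1110) (b0210) (0) (0) (0) (0)
    (fun t ht => (key t ht).2.2.2.2.2.2.2.1)
  obtain ⟨e80, e81, e82, e83, e84, e85, e86, e87, e88⟩ := coeffs_zero hS (b3000) (b2100) (b1200) (b0300) (0) (0) (0) (0) (0)
    (fun t ht => (key t ht).2.2.2.2.2.2.2.2)
  refine ⟨fun z => a3010 * z 0 + a2110 * z 1 + a2020 * z 2 + a2011 * z 3 + b2010 * z 4,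
    ⟨_, _, _, _, _, fun _ => rfl⟩, fun z hz => ?_⟩
  rw [hf z hz]
  unfold GG
  linear_combination (z 3 ^ 4) * e00 +
    (z 2 * z 3 ^ 3) * e02 +
    (z 2 ^ 2 * z 3 ^ 2) * e04 +
    (z 2 ^ 3 * z 3) * e06 +
    (z 2 ^ 4) * e08 +
    (z 0 * z 3 ^ 3) * e10 +
    (z 1 * z 3 ^ 3) * e11 +
    (z 0 * z 2 * z 3 ^ 2) * e12 +
    (z 1 * z 2 * z 3 ^ 2) * e13 +
    (z 0 * z 2 ^ 2 * z 3) * e14 +
    (z 1 * z 2 ^ 2 * z 3) * e15 +
    (z 0 * z 2 ^ 3) * e16 +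
    (z 1 * z 2 ^ 3) * e17 +
    (z 0 ^ 2 * z 3 ^ 2) * e20 +
    (z 0 * z 1 * z 3 ^ 2) * e21 +
    (z 1 ^ 2 * z 3 ^ 2) * e22 +
    (z 0 * z 1 * z 2 * z 3) * e23 +
    (z 1 ^ 2 * z 2 * z 3) * e24 +
    (z 0 * z 1 * z 2 ^ 2) * e25 +
    (z 1 ^ 2 * z 2 ^ 2) * e26 +
    (z 0 ^ 3 * z 3) * e30 +
    (z 0 ^ 2 * z 1 * z 3) * e31 +
    (z 0 * z 1 ^ 2 * z 3) * e32 +
    (z 1 ^ 3 * z 3) * e33 +
    (z 0 * z 1 ^ 2 * z 2) * e34 +
    (z 1 ^ 3 * z 2) * e35 +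
    (z 0 ^ 4) * e40 +
    (z 0 ^ 3 * z 1) * e41 +
    (z 0 ^ 2 * z 1 ^ 2) * e42 +
    (z 0 * z 1 ^ 3) * e43 +
    (z 1 ^ 4) * e44 +
    z 4 * (z 3 ^ 3) * e50 +
    z 4 * (z 2 * z 3 ^ 2) * e52 +
    z 4 * (z 2 ^ 2 * z 3) * e54 +
    z 4 * (z 2 ^ 3) * e56 +
    z 4 * (z 0 * z 3 ^ 2) * e60 +
    z 4 * (z 1 * z 3 ^ 2) * e61 +
    z 4 * (z 0 * z 2 * z 3) * e62 +
    z 4 * (z 1 * z 2 * z 3) * e63 +
    z 4 * (z 0 * z 2 ^ 2) * e64 +
    z 4 * (z 1 * z 2 ^ 2) * e65 +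
    z 4 * (z 0 ^ 2 * z 3) * e70 +
    z 4 * (z 0 * z 1 * z 3) * e71 +
    z 4 * (z 1 ^ 2 * z 3) * e72 +
    z 4 * (z 0 * z 1 * z 2) * e73 +
    z 4 * (z 1 ^ 2 * z 2) * e74 +
    z 4 * (z 0 ^ 3) * e80 +
    z 4 * (z 0 ^ 2 * z 1) * e81 +
    z 4 * (z 0 * z 1 ^ 2) * e82 +
    z 4 * (z 1 ^ 3) * e83

end Pool.Agent.H379Z.Chess
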