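import Pool.Agent.H379Z.Chess.Alg

/-!
# Conics on the double cover of the cubic scroll
-/

namespace Pool.Agent.H379Z.Chess

open Polynomial

theorem bitangent {x y z l m h : ℝ} (hh : h ≠ 0)
    (H : ∀ a b : ℝ, (x * a ^ 2 + y * (a * b) + z * b ^ 2) ^ 2 =
      (l * a + m * b) ^ 2 * (a ^ 2 + b ^ 2) +
        h ^ 2 * (625 * b ^ 4 - 350 * (a ^ 2 * b ^ 2) + 625 * a ^ 4)) :
    (m = 0 ∧ (l = 60 * h ∨ l = -60 * h)) ∨ (l = 0 ∧ (m = 60 * h ∨ m = -60 * h)) := by
  have a1 := H 1 0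
  have a2 := H 0 1
  have a3 := H 1 1
  have a4 := H 1 (-1)
  have a5 := H 1 2
  have a6 := H 1 (-2)
  have e4 : x ^ 2 = l ^ 2 + 625 * h ^ 2 := by linear_combination a1
  have e0 : z ^ 2 = m ^ 2 + 625 * h ^ 2 := by linear_combination a2
  have e2 : y ^ 2 + 2 * (x * z) = l ^ 2 + m ^ 2 - 350 * h ^ 2 := by
    linear_combination (a3 + a4) / 2 - a1 - a2
  have e3 : x * y = l * m := by linear_combination (a3 - a4) / 3 - (a5 - a6) / 24
  have e1 : y * z = l * m := by linear_combination (a5 - a6) / 24 - (a3 - a4) / 12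
  have hp : 0 < h ^ 2 := by positivity
  have sq : ∀ w : ℝ, (w ^ 2 - 3600 * h ^ 2) * (w ^ 2 + 400 * h ^ 2) = 0 →
      w = 60 * h ∨ w = -60 * h := by
    intro w hw
    have h1 : w ^ 2 - 3600 * h ^ 2 = 0 :=
      (mul_eq_zero.1 hw).resolve_right (by positivity)
    have : (w - 60 * h) * (w + 60 * h) = 0 := by linear_combination h1
    rcases mul_eq_zero.1 this with h2 | h2
    · left; linarith
    · right; linarith
  by_cases hy : y = 0
  · subst hy
    have : l * m = 0 := by linarith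
    rcases mul_eq_zero.1 this with rfl | rfl
    · right
      refine ⟨rfl, sq _ ?_⟩
      linear_combination (-(m ^ 2 - 350 * h ^ 2) - 2 * (x * z)) * e2 + 4 * z ^ 2 * e4 +
        2500 * h ^ 2 * e0
    · left
      refine ⟨rfl, sq _ ?_⟩
      linear_combination (-(l ^ 2 - 350 * h ^ 2) - 2 * (x * z)) * e2 + 4 * x ^ 2 * e0 +
        2500 * h ^ 2 * e4
  · exfalso
    have hxz : x = z := by
      apply mul_left_cancel₀ hy
      linear_combination e3 - e1
    subst hxz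
    nlinarith [sq_nonneg y]

theorem coeff_of_deg1 {p : ℝ[X]} (h : p.natDegree ≤ 1) :
    p = C (p.coeff 0) + C (p.coeff 1) * X := by
  rw [Polynomial.eq_X_add_C_of_natDegree_le_one h]
  simp [add_comm]

theorem quad_zero {a b c : ℝ} (h : ∀ s : ℝ, a + b * s + c * s ^ 2 = 0) :
    a = 0 ∧ b = 0 ∧ c = 0 := by
  have h0 := h 0
  have h1 := h 1
  have h2 := h (-1)
  refine ⟨by linarith, by linarith, by linarith⟩

/-- binary quadratic form -/
def bq (c : Fin 3 → ℝ) (s0 s1 : ℝ) : ℝ := c 0 * s0 ^ 2 + c 1 * (s0 * s1) + c 2 * s1 ^ 2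

theorem circ (U V W T Z : Fin 3 → ℝ)
    (hG : ∀ s, bq U 1 s ^ 2 * bq W 1 s = bq V 1 s ^ 2 * bq T 1 s)
    (hQ : ∀ s0 s1, bq Z s0 s1 ^ 2 = bq U s0 s1 ^ 2 + bq V s0 s1 ^ 2 + 625 * bq W s0 s1 ^ 2 -
      350 * (bq W s0 s1 * bq T s0 s1) + 625 * bq T s0 s1 ^ 2) :
    (∃ a b : ℝ, (a ≠ 0 ∨ b ≠ 0) ∧ ∀ s, a * bq V 1 s = b * bq U 1 s) ∨ (∀ s, bq T 1 s = 0) ∨
      (∀ s, bq U 1 s = 60 * bq T 1 s) ∨ (∀ s, bq U 1 s = -60 * bq T 1 s) ∨
      (∀ s, bq V 1 s = 60 * bq W 1 s) ∨ (∀ s, bq V 1 s = -60 * bq W 1 s) := by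
  classical
  let P : (Fin 3 → ℝ) → ℝ[X] := fun c => C (c 0) + C (c 1) * X + C (c 2) * X ^ 2
  have hP : ∀ c s, (P c).eval s = bq c 1 s := by
    intro c s; simp [P, bq]
  have hPd : ∀ c, (P c).natDegree ≤ 2 := by
    intro c; simp only [P]; compute_degree
  have hG' : P U ^ 2 * P W = P V ^ 2 * P T := by
    apply Polynomial.funext; intro s; simp only [eval_mul, eval_pow, hP, hG]
  by_cases hT : P T = 0
  · right; left; intro s; rw [← hP, hT, eval_zero]
  by_cases hU : P U = 0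
  · left; exact ⟨0, 1, Or.inr one_ne_zero, fun s => by rw [← hP U, hU]; simp⟩
  by_cases hV : P V = 0
  · left; exact ⟨1, 0, Or.inl one_ne_zero, fun s => by rw [← hP V, hV]; simp⟩
  obtain ⟨u, v, hu, hv, hc⟩ := extract_gcd (P U) (P V)
  set g := gcd (P U) (P V) with hg
  clear_value g
  have hcop : IsCoprime u v := (gcd_isUnit_iff u v).1 hc
  have hg0 : g ≠ 0 := by rintro rfl; exact hU (by rw [hu, zero_mul])
  have hu0 : u ≠ 0 := by rintro rfl; exact hU (by rw [hu, mul_zero])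
  have hv0 : v ≠ 0 := by rintro rfl; exact hV (by rw [hv, mul_zero])
  have h1 : u ^ 2 * P W = v ^ 2 * P T := by
    apply mul_left_cancel₀ (pow_ne_zero 2 hg0)
    rw [hu, hv] at hG'
    linear_combination hG'
  have hd : u ^ 2 ∣ P T := (hcop.pow (m := 2) (n := 2)).dvd_of_dvd_mul_left ⟨_, h1.symm⟩
  obtain ⟨h, hh⟩ := hd
  have hW : P W = v ^ 2 * h := by
    apply mul_left_cancel₀ (pow_ne_zero 2 hu0)
    rw [h1, hh]; ring
  have hh0 : h ≠ 0 := by rintro rfl; exact hT (by rw [hh, mul_zero])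
  have dT := hPd T
  have dW := hPd W
  have dU := hPd U
  have dV := hPd V
  rw [hh, natDegree_mul (pow_ne_zero 2 hu0) hh0, natDegree_pow] at dT
  rw [hW, natDegree_mul (pow_ne_zero 2 hv0) hh0, natDegree_pow] at dW
  rw [hu, natDegree_mul hg0 hu0] at dU
  rw [hv, natDegree_mul hg0 hv0] at dV
  have eu := coeff_of_deg1 (p := u) (by omega)
  have ev := coeff_of_deg1 (p := v) (by omega)
  have hUs : ∀ s, bq U 1 s = g.eval s * (u.coeff 0 + u.coeff 1 * s) := by
    intro s; rw [← hP, hu, eval_mul]; congr 1; conv_lhs => rw [eu]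
    simp
  have hVs : ∀ s, bq V 1 s = g.eval s * (v.coeff 0 + v.coeff 1 * s) := by
    intro s; rw [← hP, hv, eval_mul]; congr 1; conv_lhs => rw [ev]
    simp
  have hTs : ∀ s, bq T 1 s = (u.coeff 0 + u.coeff 1 * s) ^ 2 * h.eval s := by
    intro s; rw [← hP, hh, eval_mul, eval_pow]; congr 2; conv_lhs => rw [eu]
    simp
  have hWs : ∀ s, bq W 1 s = (v.coeff 0 + v.coeff 1 * s) ^ 2 * h.eval s := by
    intro s; rw [← hP, hW, eval_mul, eval_pow]; congr 2; conv_lhs => rw [ev]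
    simp
  by_cases hdet : u.coeff 0 * v.coeff 1 - u.coeff 1 * v.coeff 0 = 0
  · left
    by_cases h0 : u.coeff 0 = 0
    · refine ⟨u.coeff 1, v.coeff 1, Or.inl fun h1 => hu0 (by rw [eu, h0, h1]; simp), fun s => ?_⟩
      rw [hUs, hVs]; linear_combination (-g.eval s) * hdet
    · refine ⟨u.coeff 0, v.coeff 0, Or.inl h0, fun s => ?_⟩
      rw [hUs, hVs]; linear_combination (g.eval s * s) * hdet
  have hdeg : 1 ≤ u.natDegree ∨ 1 ≤ v.natDegree := by
    by_contra hn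
    push Not at hn
    apply hdet
    rw [coeff_eq_zero_of_natDegree_lt hn.1, coeff_eq_zero_of_natDegree_lt hn.2]; ring
  have eg := coeff_of_deg1 (p := g) (by omega)
  have eh := eq_C_of_natDegree_eq_zero (p := h) (by omega)
  have hgs : ∀ s, g.eval s = g.coeff 0 + g.coeff 1 * s := by
    intro s; conv_lhs => rw [eg]
    simp
  have hhs : ∀ s, h.eval s = h.coeff 0 := by
    intro s; conv_lhs => rw [eh]
    simp
  have hh1 : h.coeff 0 ≠ 0 := fun h0 => hh0 (by rw [eh, h0]; simp)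
  simp only [hgs, hhs] at hUs hVs hTs hWs
  generalize u.coeff 0 = u0 at *
  generalize u.coeff 1 = u1 at *
  generalize v.coeff 0 = v0 at *
  generalize v.coeff 1 = v1 at *
  generalize g.coeff 0 = g0 at *
  generalize g.coeff 1 = g1 at *
  generalize h.coeff 0 = h0 at *
  obtain ⟨U0, U1, U2⟩ := quad_zero (a := U 0 - g0 * u0) (b := U 1 - (g0 * u1 + g1 * u0))
    (c := U 2 - g1 * u1) (fun s => by have := hUs s; unfold bq at this; linear_combination this)
  obtain ⟨V0, V1, V2⟩ := quad_zero (a := V 0 - g0 * v0) (b := V 1 - (g0 * v1 + g1 * v0))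
    (c := V 2 - g1 * v1) (fun s => by have := hVs s; unfold bq at this; linear_combination this)
  obtain ⟨T0, T1, T2⟩ := quad_zero (a := T 0 - u0 ^ 2 * h0) (b := T 1 - 2 * u0 * u1 * h0)
    (c := T 2 - u1 ^ 2 * h0) (fun s => by have := hTs s; unfold bq at this; linear_combination this)
  obtain ⟨W0, W1, W2⟩ := quad_zero (a := W 0 - v0 ^ 2 * h0) (b := W 1 - 2 * v0 * v1 * h0)
    (c := W 2 - v1 ^ 2 * h0) (fun s => by have := hWs s; unfold bq at this; linear_combination this)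
  obtain ⟨D, hD⟩ : ∃ D, D * (u0 * v1 - u1 * v0) = 1 := ⟨_, inv_mul_cancel₀ hdet⟩
  have hb := bitangent (h := h0) (l := D * (g0 * v1 - g1 * v0)) (m := D * (g1 * u0 - g0 * u1))
    (x := bq Z (D * v1) (-D * v0)) (z := bq Z (-D * u1) (D * u0))
    (y := D ^ 2 * (-2 * Z 0 * v1 * u1 + Z 1 * (v1 * u0 + v0 * u1) - 2 * Z 2 * v0 * u0)) hh1
    (fun a b => by
      have e := hQ (D * (v1 * a - u1 * b)) (D * (u0 * b - v0 * a))
      have ea : u0 * (D * (v1 * a - u1 * b)) + u1 * (D * (u0 * b - v0 * a)) = a := by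
        linear_combination a * hD
      have eb : v0 * (D * (v1 * a - u1 * b)) + v1 * (D * (u0 * b - v0 * a)) = b := by
        linear_combination b * hD
      have fU : ∀ s0 s1, bq U s0 s1 = (g0 * s0 + g1 * s1) * (u0 * s0 + u1 * s1) := by
        intro s0 s1; unfold bq; linear_combination s0 ^ 2 * U0 + s0 * s1 * U1 + s1 ^ 2 * U2
      have fV : ∀ s0 s1, bq V s0 s1 = (g0 * s0 + g1 * s1) * (v0 * s0 + v1 * s1) := by
        intro s0 s1; unfold bq; linear_combination s0 ^ 2 * V0 + s0 * s1 * V1 + s1 ^ 2 * V2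
      have fT : ∀ s0 s1, bq T s0 s1 = (u0 * s0 + u1 * s1) ^ 2 * h0 := by
        intro s0 s1; unfold bq; linear_combination s0 ^ 2 * T0 + s0 * s1 * T1 + s1 ^ 2 * T2
      have fW : ∀ s0 s1, bq W s0 s1 = (v0 * s0 + v1 * s1) ^ 2 * h0 := by
        intro s0 s1; unfold bq; linear_combination s0 ^ 2 * W0 + s0 * s1 * W1 + s1 ^ 2 * W2
      rw [fU, fV, fT, fW, ea, eb] at e
      unfold bq at e ⊢
      linear_combination e)
  have gl : ∀ s, g0 + g1 * s = D * (g0 * v1 - g1 * v0) * (u0 + u1 * s) +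
      D * (g1 * u0 - g0 * u1) * (v0 + v1 * s) := by
    intro s; linear_combination (-(g0 + g1 * s)) * hD
  right; right
  rcases hb with ⟨hm, hl | hl⟩ | ⟨hl, hm | hm⟩
  · left; intro s; rw [hUs, hTs, gl, hm, hl]; ring
  · right; left; intro s; rw [hUs, hTs, gl, hm, hl]; ring
  · right; right; left; intro s; rw [hVs, hWs, gl, hm, hl]; ring
  · right; right; right; intro s; rw [hVs, hWs, gl, hm, hl]; ring

end Pool.Agent.H379Z.Chess
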