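import Pool.Agent.H379Z.Chess.Circ

/-!
# A surface parametrised bilinearly by two circles cannot contain the nine arcs
-/

namespace Pool.Agent.H379Z.Chess

def An (f : ℝ → ℝ) : Prop := ∀ x, AnalyticAt ℝ f x

theorem An.mul_zero {f g : ℝ → ℝ} (hf : An f) (hg : An g) (h : ∀ s, f s * g s = 0) :
    (∀ s, f s = 0) ∨ (∀ s, g s = 0) := by
  have := AnalyticOnNhd.eq_zero_or_eq_zero_of_mul_eq_zero (U := Set.univ) (f := f) (g := g)
    (fun x _ => hf x) (fun x _ => hg x) (fun x _ => h x) isPreconnected_univ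
  simpa using this

def An2 (f : ℝ → ℝ → ℝ) : Prop := (∀ t, An (fun s => f s t)) ∧ ∀ s, An (fun t => f s t)

theorem An2.mul {f g : ℝ → ℝ → ℝ} (hf : An2 f) (hg : An2 g) : An2 (fun s t => f s t * g s t) :=
  ⟨fun t x => (hf.1 t x).mul (hg.1 t x), fun s x => (hf.2 s x).mul (hg.2 s x)⟩

theorem An2.sub {f g : ℝ → ℝ → ℝ} (hf : An2 f) (hg : An2 g) : An2 (fun s t => f s t - g s t) :=
  ⟨fun t x => (hf.1 t x).sub (hg.1 t x), fun s x => (hf.2 s x).sub (hg.2 s x)⟩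

theorem An2.mul_zero {f g : ℝ → ℝ → ℝ} (hf : An2 f) (hg : An2 g) (h : ∀ s t, f s t * g s t = 0) :
    (∀ s t, f s t = 0) ∨ (∀ s t, g s t = 0) := by
  by_cases hg0 : ∀ s t, g s t = 0
  · exact Or.inr hg0
  left
  push Not at hg0
  obtain ⟨s0, t0, h0⟩ := hg0
  intro s t
  have : ∀ s, f s t * g s t0 = 0 := by
    intro s
    rcases (hf.2 s).mul_zero (hg.2 s) (h s) with h1 | h1
    · rw [h1, zero_mul]
    · rw [h1, MulZeroClass.mul_zero]
  rcases (hf.1 t).mul_zero (hg.1 t0) this with h1 | h1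
  · exact h1 s
  · exact absurd (h1 s0) h0

def Bil (z : Fin 3 → Fin 3 → V5) (x y x' y' : ℝ) : V5 := fun k =>
  z 0 0 k + x * z 1 0 k + y * z 2 0 k + x' * (z 0 1 k + x * z 1 1 k + y * z 2 1 k) +
    y' * (z 0 2 k + x * z 1 2 k + y * z 2 2 k)

def BH (z : Fin 3 → Fin 3 → V5) (s0 s1 t0 t1 : ℝ) : V5 := fun k =>
  (t0 ^ 2 + t1 ^ 2) * ((s0 ^ 2 + s1 ^ 2) * z 0 0 k + (s0 ^ 2 - s1 ^ 2) * z 1 0 k +
      2 * s0 * s1 * z 2 0 k) +
    (t0 ^ 2 - t1 ^ 2) * ((s0 ^ 2 + s1 ^ 2) * z 0 1 k + (s0 ^ 2 - s1 ^ 2) * z 1 1 k +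
      2 * s0 * s1 * z 2 1 k) +
    2 * t0 * t1 * ((s0 ^ 2 + s1 ^ 2) * z 0 2 k + (s0 ^ 2 - s1 ^ 2) * z 1 2 k +
      2 * s0 * s1 * z 2 2 k)

theorem BH_eq (z : Fin 3 → Fin 3 → V5) {s0 s1 t0 t1 : ℝ} (hs : s0 ^ 2 + s1 ^ 2 ≠ 0)
    (ht : t0 ^ 2 + t1 ^ 2 ≠ 0) : ∃ k x y x' y' : ℝ, x ^ 2 + y ^ 2 = 1 ∧ x' ^ 2 + y' ^ 2 = 1 ∧
      BH z s0 s1 t0 t1 = k • Bil z x y x' y' := by
  refine ⟨(s0 ^ 2 + s1 ^ 2) * (t0 ^ 2 + t1 ^ 2), (s0 ^ 2 - s1 ^ 2) / (s0 ^ 2 + s1 ^ 2),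
    2 * s0 * s1 / (s0 ^ 2 + s1 ^ 2), (t0 ^ 2 - t1 ^ 2) / (t0 ^ 2 + t1 ^ 2),
    2 * t0 * t1 / (t0 ^ 2 + t1 ^ 2), ?_, ?_, ?_⟩
  · field_simp; ring
  · field_simp; ring
  · funext k
    simp only [BH, Bil, Pi.smul_apply, smul_eq_mul]
    field_simp

theorem Nine.mono {t : ℝ} {P Q : V5 → Prop} (h : ∀ z, P z → Q z) (hP : Nine t P) : Nine t Q := by
  refine ⟨fun ε σ he hs => ⟨?_, ?_⟩, ?_⟩
  · obtain ⟨k, hk, h1⟩ := (hP.1 ε σ he hs).1; exact ⟨k, hk, h _ h1⟩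
  · obtain ⟨k, hk, h1⟩ := (hP.1 ε σ he hs).2; exact ⟨k, hk, h _ h1⟩
  · obtain ⟨x, hx, k, hk, h1⟩ := hP.2; exact ⟨x, hx, k, hk, h _ h1⟩

theorem Lin.an2 {l : V5 → ℝ} (hl : Lin l) (z : Fin 3 → Fin 3 → V5) :
    An2 (fun s t => l (BH z 1 s 1 t)) := by
  obtain ⟨c0, c1, c2, c3, c4, hl⟩ := hl
  simp only [hl, BH]
  exact ⟨fun t x => by fun_prop, fun s x => by fun_prop⟩

theorem lin_coord (k : Fin 5) : Lin (fun z => z k) := by
  fin_cases k
  · exact ⟨1, 0, 0, 0, 0, fun z => by simp⟩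
  · exact ⟨0, 1, 0, 0, 0, fun z => by simp⟩
  · exact ⟨0, 0, 1, 0, 0, fun z => by simp⟩
  · exact ⟨0, 0, 0, 1, 0, fun z => by simp⟩
  · exact ⟨0, 0, 0, 0, 1, fun z => by simp⟩

theorem Lin.add {f g : V5 → ℝ} (hf : Lin f) (hg : Lin g) : Lin (fun z => f z + g z) := by
  obtain ⟨c0, c1, c2, c3, c4, hf⟩ := hf
  obtain ⟨d0, d1, d2, d3, d4, hg⟩ := hg
  exact ⟨c0 + d0, c1 + d1, c2 + d2, c3 + d3, c4 + d4, fun z => by simp only [hf, hg]; ring⟩

theorem Lin.smul {f : V5 → ℝ} (k : ℝ) (hf : Lin f) : Lin (fun z => k * f z) := by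
  obtain ⟨c0, c1, c2, c3, c4, hf⟩ := hf
  exact ⟨k * c0, k * c1, k * c2, k * c3, k * c4, fun z => by simp only [hf]; ring⟩

theorem Lin.sub {f g : V5 → ℝ} (hf : Lin f) (hg : Lin g) : Lin (fun z => f z - g z) := by
  have := hf.add (hg.smul (-1))
  simpa [sub_eq_add_neg] using this

theorem core (z : Fin 3 → Fin 3 → V5) {f : V5 → ℝ} (hf : Qt f) (hne : ∃ w, Cone w ∧ f w ≠ 0)
    (hc : ∀ x y x' y' : ℝ, x ^ 2 + y ^ 2 = 1 → x' ^ 2 + y' ^ 2 = 1 →
      Cone (Bil z x y x' y') ∧ f (Bil z x y x' y') = 0)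
    {S : Set ℝ} (hS : S.Infinite) (hS1 : ∀ t ∈ S, 0 < t ∧ t < 1)
    (hP : ∀ t ∈ S, Nine t (fun w => ∃ k x y x' y' : ℝ, x ^ 2 + y ^ 2 = 1 ∧ x' ^ 2 + y' ^ 2 = 1 ∧
      w = k • Bil z x y x' y')) : False := by
  obtain ⟨l, hl, hfl⟩ := hf.van hS hS1 (fun t ht => (hP t ht).mono (by
    rintro w ⟨k, x, y, x', y', h1, h2, rfl⟩
    rw [hf.homog k (hc x y x' y' h1 h2).1, (hc x y x' y' h1 h2).2, mul_zero]))
  have hcone : ∀ s0 s1 t0 t1, Cone (BH z s0 s1 t0 t1) := by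
    intro s0 s1 t0 t1
    by_cases hs : s0 ^ 2 + s1 ^ 2 = 0
    · have h0 : s0 = 0 := by nlinarith
      have h1 : s1 = 0 := by nlinarith
      subst h0 h1; simp [Cone, BH]
    by_cases ht : t0 ^ 2 + t1 ^ 2 = 0
    · have h0 : t0 = 0 := by nlinarith
      have h1 : t1 = 0 := by nlinarith
      subst h0 h1; simp [Cone, BH]
    obtain ⟨k, x, y, x', y', h1, h2, e⟩ := BH_eq z hs ht
    rw [e]; exact (hc x y x' y' h1 h2).1.smul k
  have L : ∀ m, Lin m → (∀ s t, m (BH z 1 s 1 t) = 0) → ∀ w, Cone w → m w = 0 := by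
    intro m hm h0 w hw
    have hb : ∀ k x y x' y' : ℝ, m (k • Bil z x y x' y') = 0 := by
      intro k x y x' y'
      obtain ⟨c0, c1, c2, c3, c4, hm⟩ := hm
      have a00 := h0 0 0
      have a01 := h0 0 1
      have a02 := h0 0 (-1)
      have a10 := h0 1 0
      have a11 := h0 1 1
      have a12 := h0 1 (-1)
      have a20 := h0 (-1) 0
      have a21 := h0 (-1) 1
      have a22 := h0 (-1) (-1)
      simp only [hm, BH, Bil, Pi.smul_apply, smul_eq_mul] at *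
      linear_combination k * (x * x' * a00 +
        x * (((1 - x') + y') / 4 * a01 + ((1 - x') - y') / 4 * a02) +
        x' * (((1 - x) + y) / 4 * a10 + ((1 - x) - y) / 4 * a20) +
        ((1 - x) + y) / 4 * (((1 - x') + y') / 4 * a11 + ((1 - x') - y') / 4 * a12) +
        ((1 - x) - y) / 4 * (((1 - x') + y') / 4 * a21 + ((1 - x') - y') / 4 * a22))
    have := (hm.mul hm).van hS hS1 (fun t ht => (hP t ht).mono (by
      rintro w ⟨k, x, y, x', y', h1, h2, rfl⟩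
      rw [hb, mul_zero])) w hw
    exact mul_self_eq_zero.1 this
  have c0 := (lin_coord 0).an2 z
  have c1 := (lin_coord 1).an2 z
  have c2 := (lin_coord 2).an2 z
  have c3 := (lin_coord 3).an2 z
  have hGG : An2 (fun s t => GG (BH z 1 s 1 t)) := by
    have := ((c0.mul c0).mul c2).sub ((c1.mul c1).mul c3)
    simpa only [GG, sq] using this
  have hG : ∀ s t, GG (BH z 1 s 1 t) = 0 := by
    refine (hGG.mul_zero (hl.an2 z) fun s t => ?_).resolve_right fun h0 => ?_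
    · rw [← hfl _ (hcone 1 s 1 t)]
      obtain ⟨k, x, y, x', y', h1, h2, e⟩ := BH_eq z (s0 := 1) (s1 := s) (t0 := 1) (t1 := t)
        (by positivity) (by positivity)
      rw [e, hf.homog k (hc x y x' y' h1 h2).1, (hc x y x' y' h1 h2).2, mul_zero]
    · obtain ⟨w, hw, hw1⟩ := hne
      exact hw1 (by rw [hfl w hw, L l hl h0 w hw, mul_zero])
  -- the product of the six special linear forms
  have l1 := lin_coord 0
  have l2 := lin_coord 3
  have l3 := (lin_coord 0).sub ((lin_coord 3).smul 60)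
  have l4 := (lin_coord 0).sub ((lin_coord 3).smul (-60))
  have l5 := (lin_coord 1).sub ((lin_coord 2).smul 60)
  have l6 := (lin_coord 1).sub ((lin_coord 2).smul (-60))
  let Pi : V5 → ℝ := fun w => w 0 * w 3 * (w 0 - 60 * w 3) * (w 0 - -60 * w 3) *
    (w 1 - 60 * w 2) * (w 1 - -60 * w 2)
  have p2 := (l1.an2 z).mul (l2.an2 z)
  have p3 := p2.mul (l3.an2 z)
  have p4 := p3.mul (l4.an2 z)
  have p5 := p4.mul (l5.an2 z)
  have p6 : An2 (fun s t => Pi (BH z 1 s 1 t)) := p5.mul (l6.an2 z)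
  have hw0 : Cone ![50, 50, 0, 1, 75] := by simp only [Cone, Matrix.cons_val]; norm_num
  obtain ⟨s0, t0, h0⟩ : ∃ s0 t0, Pi (BH z 1 s0 1 t0) ≠ 0 := by
    by_contra hn
    push Not at hn
    rcases p5.mul_zero (l6.an2 z) hn with h | h
    rcases p4.mul_zero (l5.an2 z) h with h | h
    rcases p3.mul_zero (l4.an2 z) h with h | h
    rcases p2.mul_zero (l3.an2 z) h with h | h
    rcases (l1.an2 z).mul_zero (l2.an2 z) h with h | h
    · have := L _ l1 h _ hw0; simp at this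
    · have := L _ l2 h _ hw0; simp at this
    · have := L _ l3 h _ hw0; simp at this; norm_num at this
    · have := L _ l4 h _ hw0; simp at this; norm_num at this
    · have := L _ l5 h _ hw0; simp at this
    · have := L _ l6 h _ hw0; simp at this
  have gen : ∀ (Y : ℝ → ℝ → V5) (c : Fin 5 → Fin 3 → ℝ), (∀ s0 s1 k, Y s0 s1 k = bq (c k) s0 s1) →
      (∀ s0 s1, Cone (Y s0 s1)) → (∀ s, GG (Y 1 s) = 0) → ∀ s0, Pi (Y 1 s0) ≠ 0 →
      ∀ s, Y 1 s0 0 * Y 1 s 1 = Y 1 s0 1 * Y 1 s 0 := by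
    intro Y c hY hcn hg s0 h0 s
    have hne : ∀ a, a = 0 → ∀ b, Pi (Y 1 s0) = a * b → False := by
      rintro a rfl b h; exact h0 (by rw [h, zero_mul])
    have := circ (c 0) (c 1) (c 2) (c 3) (c 4)
      (fun s => by have := hg s; simp only [GG, hY] at this; linear_combination this)
      (fun s0 s1 => by have := hcn s0 s1; simp only [Cone, hY] at this; exact this)
    simp only [← hY] at this
    rcases this with ⟨a, b, hab, h⟩ | h | h | h | h | h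
    · have hU : Y 1 s0 0 ≠ 0 := fun e => h0 (by simp only [Pi, e, zero_mul])
      have ha : a ≠ 0 := by
        rintro rfl
        have := h s0
        rw [zero_mul] at this
        rcases mul_eq_zero.1 this.symm with h1 | h1
        · exact hab.elim (fun h => h rfl) (fun h => h h1)
        · exact hU h1
      apply mul_left_cancel₀ ha
      linear_combination Y 1 s0 0 * h s - Y 1 s 0 * h s0
    · exact absurd (by simp only [Pi, h s0, mul_zero, zero_mul]) h0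
    · exact absurd (by simp only [Pi, h s0, sub_self, mul_zero, zero_mul]) h0
    · exact absurd (by simp only [Pi, h s0, sub_self, mul_zero, zero_mul]) h0
    · exact absurd (by simp only [Pi, h s0, sub_self, mul_zero, zero_mul]) h0
    · exact absurd (by simp only [Pi, h s0, sub_self, mul_zero, zero_mul]) h0
  have g1 := gen (fun a b => BH z a b 1 t0)
    (fun k => ![BH z 1 0 1 t0 k, (BH z 1 1 1 t0 k - BH z 1 (-1) 1 t0 k) / 2, BH z 0 1 1 t0 k])
    (fun a b k => by simp only [bq, BH, Matrix.cons_val]; ring)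
    (fun a b => hcone a b 1 t0) (fun s => hG s t0) s0 h0
  have g2 := fun s => gen (fun a b => BH z 1 s a b)
    (fun k => ![BH z 1 s 1 0 k, (BH z 1 s 1 1 k - BH z 1 s 1 (-1) k) / 2, BH z 1 s 0 1 k])
    (fun a b k => by simp only [bq, BH, Matrix.cons_val]; ring)
    (fun a b => hcone 1 s a b) (fun t => hG s t) t0
  have hU : BH z 1 s0 1 t0 0 ≠ 0 := fun e => h0 (by simp only [Pi, e, zero_mul])
  have l7 := ((lin_coord 1).smul (BH z 1 s0 1 t0 0)).sub ((lin_coord 0).smul (BH z 1 s0 1 t0 1))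
  have fin : ∀ s t, BH z 1 s0 1 t0 0 * BH z 1 s 1 t 1 - BH z 1 s0 1 t0 1 * BH z 1 s 1 t 0 = 0 := by
    intro s t
    refine ((p6.1 t0).mul_zero ((l7.an2 z).1 t) fun s => ?_).resolve_left (fun h => h0 (h s0)) s
    by_cases hs : Pi (BH z 1 s 1 t0) = 0
    · simp only [hs, zero_mul]
    have hU' : BH z 1 s 1 t0 0 ≠ 0 := fun e => hs (by simp only [Pi, e, zero_mul])
    have e1 := g1 s
    have e2 := g2 s hs t
    apply mul_eq_zero_of_right
    apply mul_left_cancel₀ hU'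
    simp only at e1 e2 ⊢
    linear_combination BH z 1 s0 1 t0 0 * e2 + BH z 1 s 1 t 0 * e1
  have hw1 : Cone ![0, 1, 0, 0, 1] := by simp only [Cone, Matrix.cons_val]; norm_num
  have := L _ l7 fin _ hw1
  simp at this
  exact hU this

end Pool.Agent.H379Z.Chess
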