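import Mathlib

/-!
# Grids of circular arcs, Moebius maps and the three model surfaces
-/

namespace Pool.Agent.H379Z.Chess

open OnePoint

/-- Euclidean 3-space. -/
abbrev E3 : Type := EuclideanSpace ℝ (Fin 3)

/-- A circle: the points at distance `r > 0` from a centre `c` in the plane through `c`
orthogonal to a nonzero vector `n`. -/
def IsCircle (S : Set E3) : Prop :=
  ∃ (c n : E3) (r : ℝ), n ≠ 0 ∧ 0 < r ∧ S = {x | dist x c = r ∧ inner ℝ (x - c) n = 0}

/-- A circular arc: a connected subset of a circle with more than one point. -/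
def IsArc (A : Set E3) : Prop :=
  IsConnected A ∧ A.Nontrivial ∧ ∃ S, IsCircle S ∧ A ⊆ S

/-- An `n × n` grid of arcs: two collections of `n + 1` pairwise disjoint circular arcs, every arc
of the first collection meeting every arc of the second. -/
def IsGrid (n : ℕ) (a b : Fin (n + 1) → Set E3) : Prop :=
  (∀ i, IsArc (a i)) ∧ (∀ j, IsArc (b j)) ∧
    (∀ i i', i ≠ i' → Disjoint (a i) (a i')) ∧ (∀ j j', j ≠ j' → Disjoint (b j) (b j')) ∧
    ∀ i j, (a i ∩ b j).Nonempty

/-- The cross product. -/
noncomputable def cross (p q : E3) : E3 :=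
  !₂[p 1 * q 2 - p 2 * q 1, p 2 * q 0 - p 0 * q 2, p 0 * q 1 - p 1 * q 0]

/-- Euclidean translational surfaces. -/
def TypeE (Y : Set E3) : Prop :=
  ∃ α β, IsCircle α ∧ IsCircle β ∧ Y = {y | ∃ p ∈ α, ∃ q ∈ β, y = p + q}

/-- Clifford translational surfaces. -/
def TypeC (Y : Set E3) : Prop :=
  ∃ α β, IsCircle α ∧ IsCircle β ∧ α ⊆ Metric.sphere 0 1 ∧ β ⊆ Metric.sphere 0 1 ∧
    Y = {y | ∃ p ∈ α, ∃ q ∈ β, p + q ≠ 0 ∧ y = (2 / ‖p + q‖ ^ 2) • cross p q}

/-- Darboux cyclides: zero sets of `Q (x, y, z, x² + y² + z²)` with `Q` of degree 1 or 2, the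
whole space (obtained from the multiples of `t - x² - y² - z²`) being excluded. -/
def TypeD (Y : Set E3) : Prop :=
  Y ≠ Set.univ ∧ ∃ Q : MvPolynomial (Fin 4) ℝ, (Q.totalDegree = 1 ∨ Q.totalDegree = 2) ∧
    Y = {p | MvPolynomial.eval ![p 0, p 1, p 2, p 0 ^ 2 + p 1 ^ 2 + p 2 ^ 2] Q = 0}

open Classical in
/-- The inversion in the sphere with centre `c` and radius `r`, acting on the space together with
the point at infinity: it exchanges `c` and `∞`. -/
noncomputable def invert (c : E3) (r : ℝ) (x : OnePoint E3) : OnePoint E3 :=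
  OnePoint.elim x (c : OnePoint E3)
    (fun y => if y = c then ∞ else ((EuclideanGeometry.inversion c r y : E3) : OnePoint E3))

/-- The composition of the inversions in a list of spheres (centre, radius). -/
noncomputable def invertAll (L : List (E3 × ℝ)) (x : OnePoint E3) : OnePoint E3 :=
  L.foldr (fun s y => invert s.1 s.2 y) x

end Pool.Agent.H379Z.Chess
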