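import Pool.Agent.H379Z.Chess.Types

/-!
# The grid
-/

namespace Pool.Agent.H379Z.Chess

noncomputable def pt (z : V5) : E3 :=
  !₂[z 0 / (z 4 - 24 * z 3), z 1 / (z 4 - 24 * z 3), (25 * z 2 - 7 * z 3) / (z 4 - 24 * z 3)]

def Rul (t : ℝ) (z : V5) : Prop :=
  Cone z ∧ 0 < z 4 - 24 * z 3 ∧ z 0 ≠ 0 ∧ z 1 = t * z 0 ∧ z 2 = t ^ 2 * z 3

theorem BF_pt {t : ℝ} {z : V5} (h : Rul t z) : BF ((z 4 - 24 * z 3)⁻¹ • z) = lift0 (pt z) := by
  obtain ⟨hc, hd, -⟩ := h
  have hd' := hd.ne'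
  unfold Cone at hc
  funext k
  fin_cases k
  · simp [BF, lift0, pt]; field_simp
  · simp [BF, lift0, pt]; field_simp
  · simp [BF, lift0, pt]; field_simp
  · simp [BF, lift0, pt]; field_simp; linear_combination hc
  · simp [BF, lift0, pt]; field_simp

theorem pt_ratio {t : ℝ} {z : V5} (h : Rul t z) : pt z 0 ≠ 0 ∧ pt z 1 = t * pt z 0 := by
  obtain ⟨-, hd, h0, h1, -⟩ := h
  refine ⟨by simpa [pt] using ⟨h0, hd.ne'⟩, ?_⟩
  simp [pt, h1]; ring

theorem pt_inj {t t' : ℝ} {z z' : V5} (h : Rul t z) (h' : Rul t' z') (e : pt z = pt z') :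
    t = t' := by
  have a := pt_ratio h
  have b := pt_ratio h'
  rw [e] at a
  exact mul_right_cancel₀ b.1 (a.2.symm.trans b.2)

def zA (ε σ t : ℝ) : V5 := ![σ * (60 * ε), σ * (60 * ε * t), σ * t ^ 2, σ, 65 + 25 * t ^ 2]

def zB (ε σ t : ℝ) : V5 :=
  ![σ * (60 * ε * t), σ * (60 * ε * t ^ 2), σ * t ^ 2, σ, 25 + 65 * t ^ 2]

noncomputable def zE (t : ℝ) : V5 := ![1, t, 0, 0, Real.sqrt (1 + t ^ 2)]

noncomputable def zf : Fin 9 → ℝ → V5 :=
  ![zA 1 1, zA 1 (-1), zA (-1) 1, zA (-1) (-1), zB 1 1, zB 1 (-1), zB (-1) 1, zB (-1) (-1), zE]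

theorem den_pos (i : Fin 9) (t : ℝ) : 0 < zf i t 4 - 24 * zf i t 3 := by
  fin_cases i <;> simp [zf, zA, zB, zE] <;> first | positivity | nlinarith [sq_nonneg t]

theorem rul_zf (i : Fin 9) {t : ℝ} (ht : 0 < t) : Rul t (zf i t) := by
  refine ⟨?_, den_pos i t, ?_, ?_, ?_⟩
  · fin_cases i <;> simp [Cone, zf, zA, zB, zE] <;>
      first | ring1 | (rw [Real.sq_sqrt (by positivity)])
  · fin_cases i <;> simp [zf, zA, zB, zE, ht.ne']
  · fin_cases i <;> simp [zf, zA, zB, zE] <;> ring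
  · fin_cases i <;> simp [zf, zA, zB, zE]

theorem cont_zf (i : Fin 9) (k : Fin 5) : Continuous (fun t => zf i t k) := by
  fin_cases i <;> fin_cases k <;> simp [zf, zA, zB, zE] <;> fun_prop

theorem cont_pt (i : Fin 9) : Continuous (fun t => pt (zf i t)) := by
  have hd : Continuous (fun t => zf i t 4 - 24 * zf i t 3) :=
    (cont_zf i 4).sub (continuous_const.mul (cont_zf i 3))
  refine (PiLp.continuous_toLp 2 _).comp (continuous_pi fun k => ?_)
  fin_cases k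
  · exact (cont_zf i 0).div hd fun t => (den_pos i t).ne'
  · exact (cont_zf i 1).div hd fun t => (den_pos i t).ne'
  · exact ((continuous_const.mul (cont_zf i 2)).sub (continuous_const.mul (cont_zf i 3))).div hd
      fun t => (den_pos i t).ne'

def circ3 (c n : E3) (q : ℝ) : Set E3 :=
  {x | (x 0 - c 0) ^ 2 + (x 1 - c 1) ^ 2 + (x 2 - c 2) ^ 2 = q ∧
    (x 0 - c 0) * n 0 + (x 1 - c 1) * n 1 + (x 2 - c 2) * n 2 = 0}

theorem isCircle_circ3 (c n : E3) {q : ℝ} (hn : n 0 ≠ 0 ∨ n 1 ≠ 0 ∨ n 2 ≠ 0) (hq : 0 < q) :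
    IsCircle (circ3 c n q) := by
  refine ⟨c, n, Real.sqrt q, ?_, Real.sqrt_pos.2 hq, ?_⟩
  · rintro rfl; simp at hn
  · ext x
    simp only [Set.mem_setOf_eq, mem_circle (Real.sqrt_pos.2 hq), Real.sq_sqrt hq.le, circ3]

theorem IsCircle.conn {α : Set E3} (h : IsCircle α) : IsConnected α := by
  obtain ⟨c, n, a, b, r, -, -, -, -, -, -, -, h⟩ := h.param
  have h1 : IsConnected (Metric.sphere (0 : ℂ) 1) :=
    isConnected_sphere (by rw [Complex.rank_real_complex]; norm_num) 0 zero_le_one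
  have h2 := h1.image (fun w : ℂ => c + w.re • a + w.im • b) (by fun_prop)
  convert h2 using 1
  ext p
  rw [h]
  constructor
  · rintro ⟨x, y, h, rfl⟩
    refine ⟨⟨x, y⟩, ?_, rfl⟩
    rw [mem_sphere_zero_iff_norm, Complex.norm_eq_sqrt_sq_add_sq]
    simp [h]
  · rintro ⟨w, hw, rfl⟩
    refine ⟨w.re, w.im, ?_, rfl⟩
    rw [mem_sphere_zero_iff_norm] at hw
    have := Complex.sq_norm w
    rw [hw, Complex.normSq_apply] at this
    linear_combination -this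

noncomputable def arcA (i : Fin 9) : Set E3 := (fun t => pt (zf i t)) '' Set.Icc (1 / 10) (9 / 10)

noncomputable def arcB (t : ℝ) : Set E3 :=
  circ3 !₂[0, 0, 24 / (25 * t ^ 2 - 7)] !₂[t, -1, 0] (1 + (24 / (25 * t ^ 2 - 7)) ^ 2)

noncomputable def tj (j : Fin 9) : ℝ := ((j : ℕ) + 1) / 10

theorem tj_mem (j : Fin 9) : tj j ∈ Set.Icc (1 / 10 : ℝ) (9 / 10) := by
  fin_cases j <;> simp [tj] <;> norm_num

theorem tj_ne (j : Fin 9) : 25 * tj j ^ 2 - 7 ≠ 0 := by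
  fin_cases j <;> simp [tj] <;> norm_num

theorem mem_arcB {t : ℝ} (hw : 25 * t ^ 2 - 7 ≠ 0) {y : E3} :
    y ∈ arcB t ↔ (y 0 ^ 2 + y 1 ^ 2 + y 2 ^ 2 - 1) * (25 * t ^ 2 - 7) = 48 * y 2 ∧
      y 1 = t * y 0 := by
  simp only [arcB, circ3, Set.mem_setOf_eq]
  simp
  apply and_congr
  · generalize 25 * t ^ 2 - 7 = w at *
    constructor
    · intro h; field_simp at h; apply mul_left_cancel₀ hw; linear_combination h
    · intro h; field_simp; linear_combination w * h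
  · constructor <;> intro h <;> linear_combination -h

theorem pt_mem_arcB {t : ℝ} (hw : 25 * t ^ 2 - 7 ≠ 0) {z : V5} (h : Rul t z) : pt z ∈ arcB t := by
  rw [mem_arcB hw]
  refine ⟨?_, (pt_ratio h).2⟩
  obtain ⟨hc, hd, -, -, h2⟩ := h
  have hd' := hd.ne'
  unfold Cone at hc
  simp [pt]
  field_simp
  linear_combination (-(25 * t ^ 2 - 7)) * hc - 1200 * (z 4 - 24 * z 3) * h2

theorem arcA_circle (i : Fin 9) : ∃ S, IsCircle S ∧ arcA i ⊆ S := by
  have key : ∀ (c n : E3) (q : ℝ), (n 0 ≠ 0 ∨ n 1 ≠ 0 ∨ n 2 ≠ 0) → 0 < q →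
      (∀ t, pt (zf i t) ∈ circ3 c n q) → ∃ S, IsCircle S ∧ arcA i ⊆ S := by
    intro c n q hn hq h
    exact ⟨_, isCircle_circ3 c n hn hq, by rintro _ ⟨t, -, rfl⟩; exact h t⟩
  have hd := fun t => (den_pos i t).ne'
  fin_cases i
  · refine key !₂[30 / 41, 0, 17 / 41] !₂[4, 0, 5] (36 / 41) (by simp) (by norm_num) fun t => ?_
    have h := hd t
    simp [circ3, pt, zf, zA, zB] at h ⊢
    constructor <;> field_simp <;> ring
  · refine key !₂[-30 / 89, 0, -41 / 89] !₂[8, 0, 5] (36 / 89) (by simp) (by norm_num) fun t => ?_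
    have h := hd t
    simp [circ3, pt, zf, zA, zB] at h ⊢
    constructor <;> field_simp <;> ring
  · refine key !₂[-30 / 41, 0, 17 / 41] !₂[4, 0, -5] (36 / 41) (by simp) (by norm_num) fun t => ?_
    have h := hd t
    simp [circ3, pt, zf, zA, zB] at h ⊢
    constructor <;> field_simp <;> ring
  · refine key !₂[30 / 89, 0, -41 / 89] !₂[8, 0, -5] (36 / 89) (by simp) (by norm_num) fun t => ?_
    have h := hd t
    simp [circ3, pt, zf, zA, zB] at h ⊢
    constructor <;> field_simp <;> ring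
  · refine key !₂[0, 6 / 13, -43 / 13] !₂[0, 8, -1] (180 / 13) (by simp) (by norm_num) fun t => ?_
    have h := hd t
    simp [circ3, pt, zf, zA, zB] at h ⊢
    rw [show (25 + 65 * t ^ 2 - 24 : ℝ) = 1 + 65 * t ^ 2 by ring]
    constructor <;> field_simp <;> ring
  · refine key !₂[0, -6 / 13, -11 / 91] !₂[0, 4, -7] (180 / 637) (by simp) (by norm_num) fun t => ?_
    have h := hd t
    simp [circ3, pt, zf, zA, zB] at h ⊢
    constructor <;> field_simp <;> ring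
  · refine key !₂[0, -6 / 13, -43 / 13] !₂[0, 8, 1] (180 / 13) (by simp) (by norm_num) fun t => ?_
    have h := hd t
    simp [circ3, pt, zf, zA, zB] at h ⊢
    rw [show (25 + 65 * t ^ 2 - 24 : ℝ) = 1 + 65 * t ^ 2 by ring]
    constructor <;> field_simp <;> ring
  · refine key !₂[0, 6 / 13, -11 / 91] !₂[0, 4, 7] (180 / 637) (by simp) (by norm_num) fun t => ?_
    have h := hd t
    simp [circ3, pt, zf, zA, zB] at h ⊢
    constructor <;> field_simp <;> ring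
  · refine key !₂[0, 0, 0] !₂[0, 0, 1] 1 (by simp) (by norm_num) fun t => ?_
    have hs : Real.sqrt (1 + t ^ 2) ^ 2 = 1 + t ^ 2 := Real.sq_sqrt (by positivity)
    have hs0 : Real.sqrt (1 + t ^ 2) ≠ 0 := by positivity
    simp [circ3, pt, zf, zE]
    field_simp
    linear_combination -hs

theorem zf_ne {i i' : Fin 9} (h : i ≠ i') {t : ℝ} (h0 : 0 < t) (h1 : t < 1) :
    pt (zf i t) ≠ pt (zf i' t) := by
  intro e
  have a := BF_pt (rul_zf i h0)
  have b := BF_pt (rul_zf i' h0)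
  rw [e, ← b] at a
  have c : _ = _ := BE.injective a
  have hk := inv_pos.2 (den_pos i t)
  have hk' := inv_pos.2 (den_pos i' t)
  generalize (zf i t 4 - 24 * zf i t 3)⁻¹ = k at *
  generalize (zf i' t 4 - 24 * zf i' t 3)⁻¹ = k' at *
  have c0 : k * zf i t 0 = k' * zf i' t 0 := congrFun c 0
  have c3 : k * zf i t 3 = k' * zf i' t 3 := congrFun c 3
  have p1 := mul_pos hk h0
  have p2 := mul_pos hk' h0
  have p3 := mul_pos hk (sub_pos.2 h1)
  have p4 := mul_pos hk' (sub_pos.2 h1)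
  clear a b c e
  fin_cases i <;> fin_cases i' <;>
    first
    | exact absurd rfl h
    | (simp only [zf, zA, zB, zE, Fin.reduceFinMk, Matrix.cons_val] at c0 c3; nlinarith)

theorem grid : IsGrid 8 arcA (fun j => arcB (tj j)) ∧
    ∀ i j, ∃! p, p ∈ arcA i ∩ arcB (tj j) := by
  have pos : ∀ {t : ℝ}, t ∈ Set.Icc (1 / 10 : ℝ) (9 / 10) → 0 < t ∧ t < 1 := fun h =>
    ⟨by linarith [h.1], by linarith [h.2]⟩
  have hm : ∀ i j, pt (zf i (tj j)) ∈ arcA i ∩ arcB (tj j) := fun i j =>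
    ⟨⟨_, tj_mem j, rfl⟩, pt_mem_arcB (tj_ne j) (rul_zf i (pos (tj_mem j)).1)⟩
  have hB : ∀ t, IsCircle (arcB t) := fun t =>
    isCircle_circ3 _ _ (by simp) (by positivity)
  refine ⟨⟨fun i => ⟨isConnected_Icc (by norm_num) |>.image _ (cont_pt i).continuousOn, ?_,
    arcA_circle i⟩, fun j => ⟨(hB _).conn, ?_, _, hB _, subset_rfl⟩, ?_, ?_,
    fun i j => ⟨_, hm i j⟩⟩, fun i j => ⟨_, hm i j, ?_⟩⟩
  · refine ⟨_, ⟨1 / 10, by norm_num, rfl⟩, _, ⟨9 / 10, by norm_num, rfl⟩, fun e => ?_⟩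
    have := pt_inj (rul_zf i (by norm_num)) (rul_zf i (by norm_num)) e
    norm_num at this
  · exact ⟨_, (hm 0 j).2, _, (hm 1 j).2,
      zf_ne (by decide) (pos (tj_mem j)).1 (pos (tj_mem j)).2⟩
  · intro i i' h
    rw [Set.disjoint_left]
    rintro _ ⟨t, ht, rfl⟩ ⟨t', ht', e⟩
    obtain rfl := pt_inj (rul_zf i' (pos ht').1) (rul_zf i (pos ht).1) e
    exact zf_ne h (pos ht).1 (pos ht).2 e.symm
  · intro j j' h
    rw [Set.disjoint_left]
    intro y h1 h2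
    rw [mem_arcB (tj_ne _)] at h1 h2
    have hne : tj j - tj j' ≠ 0 := by
      intro e
      apply h
      apply Fin.ext
      have : ((j : ℕ) : ℝ) = (j' : ℕ) := by unfold tj at e; linarith
      exact_mod_cast this
    have hs : 0 < tj j + tj j' := add_pos (pos (tj_mem j)).1 (pos (tj_mem j')).1
    have y0 : y 0 = 0 := by
      apply mul_left_cancel₀ hne; linear_combination h2.2 - h1.2
    have y1 : y 1 = 0 := by rw [h1.2, y0, mul_zero]
    have y3 : y 0 ^ 2 + y 1 ^ 2 + y 2 ^ 2 - 1 = 0 := by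
      apply mul_left_cancel₀ (mul_ne_zero hne hs.ne')
      linear_combination (h1.1 - h2.1) / 25
    have y2 : y 2 = 0 := by have := h1.1; rw [y3] at this; linarith
    rw [y0, y1, y2] at y3
    norm_num at y3
  · rintro _ ⟨⟨t, ht, rfl⟩, h2⟩
    rw [mem_arcB (tj_ne _)] at h2
    have a := pt_ratio (rul_zf i (pos ht).1)
    have : t = tj j := mul_right_cancel₀ a.1 (a.2.symm.trans h2.2)
    rw [this]

theorem nine_grid {A : Set E3} (hA : ∀ i, arcA i ⊆ A) {t : ℝ}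
    (ht : t ∈ Set.Icc (1 / 10 : ℝ) (9 / 10)) :
    Nine t (fun w => w 0 ≠ 0 ∧ w 1 = t * w 0 ∧ ∃ y ∈ A, BF w = lift0 y) := by
  have h0 : 0 < t := by linarith [ht.1]
  have key : ∀ i, ∃ k : ℝ, k ≠ 0 ∧ (k • zf i t) 0 ≠ 0 ∧ (k • zf i t) 1 = t * (k • zf i t) 0 ∧
      ∃ y ∈ A, BF (k • zf i t) = lift0 y := by
    intro i
    have h := rul_zf i h0
    have hk := inv_ne_zero (den_pos i t).ne'
    refine ⟨_, hk, mul_ne_zero hk h.2.2.1, ?_, _, hA i ⟨t, ht, rfl⟩, BF_pt h⟩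
    simp only [Pi.smul_apply, smul_eq_mul, h.2.2.2.1]; ring
  refine ⟨fun ε σ he hs => ?_, Real.sqrt (1 + t ^ 2), Real.sq_sqrt (by positivity), key 8⟩
  rcases sq_eq_one_iff_of_ne_zero' he with rfl | rfl <;>
    rcases sq_eq_one_iff_of_ne_zero' hs with rfl | rfl
  · exact ⟨key 0, key 4⟩
  · exact ⟨key 1, key 5⟩
  · exact ⟨key 2, key 6⟩
  · exact ⟨key 3, key 7⟩

end Pool.Agent.H379Z.Chess
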