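import Pool.Agent.H379Z.Chess.Core
import Pool.Agent.H379Z.Chess.Defs

/-!
# Inversions act linearly on the light cone
-/

namespace Pool.Agent.H379Z.Chess

open OnePoint

def QQ (X : V5) : ℝ := X 0 ^ 2 + X 1 ^ 2 + X 2 ^ 2 - X 3 * X 4

def lift0 (y : E3) : V5 := ![y 0, y 1, y 2, y 0 ^ 2 + y 1 ^ 2 + y 2 ^ 2, 1]

def lift (p : OnePoint E3) : V5 := OnePoint.elim p ![0, 0, 0, 1, 0] lift0

theorem QQ_lift0 (y : E3) : QQ (lift0 y) = 0 := by
  simp only [QQ, lift0, Matrix.cons_val]; ring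

def dl (c : E3) (X : V5) : ℝ :=
  X 3 - 2 * (c 0 * X 0 + c 1 * X 1 + c 2 * X 2) + (c 0 ^ 2 + c 1 ^ 2 + c 2 ^ 2) * X 4

def invF (c : E3) (r : ℝ) (X : V5) : V5 :=
  ![c 0 * dl c X + r ^ 2 * (X 0 - c 0 * X 4), c 1 * dl c X + r ^ 2 * (X 1 - c 1 * X 4),
    c 2 * dl c X + r ^ 2 * (X 2 - c 2 * X 4),
    (c 0 ^ 2 + c 1 ^ 2 + c 2 ^ 2) * dl c X + 2 * r ^ 2 * (c 0 * X 0 + c 1 * X 1 + c 2 * X 2 -
      (c 0 ^ 2 + c 1 ^ 2 + c 2 ^ 2) * X 4) + r ^ 4 * X 4, dl c X]

def invL (c : E3) (r : ℝ) : V5 →ₗ[ℝ] V5 where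
  toFun := invF c r
  map_add' X Y := by
    funext k; fin_cases k <;> simp [invF, dl] <;> ring
  map_smul' a X := by
    funext k; fin_cases k <;> simp [invF, dl] <;> ring

theorem invF_invF (c : E3) (r : ℝ) (X : V5) : invF c r (invF c r X) = r ^ 4 • X := by
  funext k; fin_cases k <;> simp [invF, dl] <;> ring

theorem QQ_invF (c : E3) (r : ℝ) (X : V5) : QQ (invF c r X) = r ^ 4 * QQ X := by
  simp only [QQ, invF, dl, Matrix.cons_val]; ring

noncomputable def invE (c : E3) {r : ℝ} (hr : r ≠ 0) : V5 ≃ₗ[ℝ] V5 :=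
  LinearEquiv.ofLinear (invL c r) ((r ^ 4)⁻¹ • invL c r)
    (by
      apply LinearMap.ext; intro X
      have : invL c r (invL c r X) = r ^ 4 • X := invF_invF c r X
      simp [this, smul_smul, inv_mul_cancel₀ (pow_ne_zero 4 hr)])
    (by
      apply LinearMap.ext; intro X
      have : invL c r (invL c r X) = r ^ 4 • X := invF_invF c r X
      simp [this, smul_smul, inv_mul_cancel₀ (pow_ne_zero 4 hr)])

theorem dist_sq (x c : E3) :
    dist x c ^ 2 = (x 0 - c 0) ^ 2 + (x 1 - c 1) ^ 2 + (x 2 - c 2) ^ 2 := by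
  rw [EuclideanSpace.dist_eq, Real.sq_sqrt (by positivity)]
  simp [Fin.sum_univ_three, Real.dist_eq]

theorem lift_invert (c : E3) {r : ℝ} (hr : r ≠ 0) (p : OnePoint E3) :
    ∃ k : ℝ, k ≠ 0 ∧ lift (invert c r p) = k • invF c r (lift p) := by
  induction p using OnePoint.rec with
  | infty =>
    refine ⟨1, one_ne_zero, ?_⟩
    funext k; fin_cases k <;> simp [lift, invert, invF, dl, lift0]
  | coe y =>
    by_cases h : y = c
    · subst h
      refine ⟨(r ^ 4)⁻¹, by positivity, ?_⟩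
      funext k; fin_cases k <;> simp [lift, invert, invF, dl, lift0] <;> field_simp <;> ring_nf <;>
        simp
    · have hd : dist y c ≠ 0 := dist_ne_zero.2 h
      have hs := dist_sq y c
      have hi : ∀ i, EuclideanGeometry.inversion c r y i =
          r ^ 2 / dist y c ^ 2 * (y i - c i) + c i := by
        intro i; simp [EuclideanGeometry.inversion, div_pow]
      have hl : dl c (lift0 y) = dist y c ^ 2 := by
        rw [hs]; simp only [dl, lift0, Matrix.cons_val]; ring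
      refine ⟨(dist y c ^ 2)⁻¹, by positivity, ?_⟩
      simp only [lift, invert, OnePoint.elim_some, if_neg h, invF, hl]
      generalize dist y c = d at *
      funext k; fin_cases k
      · simp [lift0, hi]; field_simp; ring
      · simp [lift0, hi]; field_simp; ring
      · simp [lift0, hi]; field_simp; ring
      · simp [lift0, hi]; field_simp; linear_combination (-r ^ 4) * hs
      · simp [lift0]; field_simp

theorem lift_invertAll (L : List (E3 × ℝ)) (hL : ∀ s ∈ L, 0 < s.2) :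
    ∃ M : V5 ≃ₗ[ℝ] V5, (∀ X, QQ X = 0 ↔ QQ (M X) = 0) ∧
      ∀ p, ∃ k : ℝ, k ≠ 0 ∧ lift (invertAll L p) = k • M (lift p) := by
  induction L with
  | nil => exact ⟨LinearEquiv.refl _ _, fun X => Iff.rfl, fun p => ⟨1, one_ne_zero, by simp [invertAll]⟩⟩
  | cons s L ih =>
    obtain ⟨M, hM, hp⟩ := ih (fun s hs => hL s (List.mem_cons_of_mem _ hs))
    have hr : s.2 ≠ 0 := (hL s List.mem_cons_self).ne'
    refine ⟨M.trans (invE s.1 hr), fun X => ?_, fun p => ?_⟩
    · have : (M.trans (invE s.1 hr)) X = invF s.1 s.2 (M X) := rfl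
      rw [this, QQ_invF, hM]
      simp [hr]
    · obtain ⟨k, hk, e⟩ := hp p
      obtain ⟨k', hk', e'⟩ := lift_invert s.1 hr (invertAll L p)
      refine ⟨k' * k, mul_ne_zero hk' hk, ?_⟩
      have h1 : invertAll (s :: L) p = invert s.1 s.2 (invertAll L p) := rfl
      have h2 : (M.trans (invE s.1 hr)) (lift p) = invL s.1 s.2 (M (lift p)) := rfl
      have h3 : ∀ X, invF s.1 s.2 X = invL s.1 s.2 X := fun _ => rfl
      rw [h1, e', e, h2, h3, _root_.map_smul, smul_smul]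

def BF (z : V5) : V5 := ![z 0, z 1, 25 * z 2 - 7 * z 3, z 4 + 24 * z 3, z 4 - 24 * z 3]

noncomputable def BE : V5 ≃ₗ[ℝ] V5 where
  toFun := BF
  map_add' X Y := by
    funext k; fin_cases k <;> simp [BF] <;> ring
  map_smul' a X := by
    funext k; fin_cases k <;> simp [BF] <;> ring
  invFun X := ![X 0, X 1, (X 2 + 7 * ((X 3 - X 4) / 48)) / 25, (X 3 - X 4) / 48, (X 3 + X 4) / 2]
  left_inv X := by
    funext k; fin_cases k <;> simp [BF] <;> ring
  right_inv X := by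
    funext k; fin_cases k <;> simp [BF] <;> ring

theorem cone_iff (z : V5) : Cone z ↔ QQ (BF z) = 0 := by
  simp only [Cone, QQ, BF, Matrix.cons_val]
  constructor <;> intro h <;> linear_combination -h

/-- `Y` contains, after a Moebius change of coordinates, the nine points over infinitely many
rulings. -/
def Bad (Y : Set E3) : Prop :=
  ∃ M : V5 ≃ₗ[ℝ] V5, (∀ z, Cone z ↔ QQ (M z) = 0) ∧ ∃ S : Set ℝ, S.Infinite ∧
    (∀ t ∈ S, 0 < t ∧ t < 1) ∧
    ∀ t ∈ S, Nine t (fun w => ∃ y ∈ Y, ∃ k : ℝ, M w = k • lift0 y)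

theorem bad_of_map {A Y : Set E3} {S : Set ℝ} (hS : S.Infinite) (hS1 : ∀ t ∈ S, 0 < t ∧ t < 1)
    (hA : ∀ t ∈ S, Nine t (fun w => w 0 ≠ 0 ∧ w 1 = t * w 0 ∧ ∃ y ∈ A, BF w = lift0 y))
    (L : List (E3 × ℝ)) (hL : ∀ s ∈ L, 0 < s.2)
    (h : ∀ x ∈ A, invertAll L (x : OnePoint E3) = ∞ ∨
      ∃ y ∈ Y, invertAll L (x : OnePoint E3) = (y : OnePoint E3)) : Bad Y := by
  obtain ⟨M, hM, hp⟩ := lift_invertAll L hL
  let N := BE.trans M
  let w0 := N.symm ![0, 0, 0, 1, 0]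
  refine ⟨N, fun z => (cone_iff z).trans (hM _), S \ {w0 1 / w0 0},
    hS.diff (Set.finite_singleton _), fun t ht => hS1 t ht.1, fun t ht => (hA t ht.1).mono ?_⟩
  rintro w ⟨h0, h1, x, hx, e⟩
  obtain ⟨k, hk, e'⟩ := hp (x : OnePoint E3)
  have hN : N w = k⁻¹ • lift (invertAll L x) := by
    have : N w = M (BF w) := rfl
    rw [this, e, e', smul_smul, inv_mul_cancel₀ hk, one_smul]; rfl
  rcases h x hx with h2 | ⟨y, hy, h2⟩
  · exfalso
    apply ht.2
    have : w = k⁻¹ • w0 := by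
      apply N.injective
      rw [hN, h2, _root_.map_smul]
      simp only [w0, LinearEquiv.apply_symm_apply]; rfl
    rw [this] at h0 h1
    simp only [Pi.smul_apply, smul_eq_mul] at h0 h1
    have h3 : w0 0 ≠ 0 := right_ne_zero_of_mul h0
    have hk' : k⁻¹ ≠ 0 := inv_ne_zero hk
    rw [Set.mem_singleton_iff, eq_div_iff h3]
    apply mul_left_cancel₀ hk'
    linear_combination -h1
  · exact ⟨y, hy, k⁻¹, by rw [hN, h2]; rfl⟩

theorem lin5 (M : V5 →ₗ[ℝ] V5) (c0 c1 c2 c3 c4 : ℝ) :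
    Lin (fun z => c0 * M z 0 + c1 * M z 1 + c2 * M z 2 + c3 * M z 3 + c4 * M z 4) := by
  have h : ∀ k, Lin (fun z => M z k) := by
    intro k
    refine ⟨M (Pi.single 0 1) k, M (Pi.single 1 1) k, M (Pi.single 2 1) k, M (Pi.single 3 1) k,
      M (Pi.single 4 1) k, fun z => ?_⟩
    have : z = z 0 • (Pi.single 0 1 : V5) + z 1 • (Pi.single 1 1 : V5) +
        z 2 • (Pi.single 2 1 : V5) + z 3 • (Pi.single 3 1 : V5) + z 4 • (Pi.single 4 1 : V5) := by
      funext j; fin_cases j <;> simp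
    conv_lhs => rw [this]
    simp only [map_add, _root_.map_smul, Pi.add_apply, Pi.smul_apply, smul_eq_mul]
    ring
  exact (((((h 0).smul c0).add ((h 1).smul c1)).add ((h 2).smul c2)).add ((h 3).smul c3)).add
    ((h 4).smul c4)

theorem Qd.congr {f g : V5 → ℝ} (hf : Qd f) (h : ∀ z, g z = f z) : Qd g := by
  have : g = f := funext h
  rwa [this]

theorem Qt.congr {f g : V5 → ℝ} (hf : Qt f) (h : ∀ z, g z = f z) : Qt g := by
  have : g = f := funext h
  rwa [this]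

theorem not_bad_of_quad {Y : Set E3} (H : V5 → ℝ)
    (hH : ∀ M : V5 →ₗ[ℝ] V5, Qd (fun z => H (M z))) (h0 : ∀ y ∈ Y, H (lift0 y) = 0)
    (hne : ∃ y, H (lift0 y) ≠ 0) : ¬ Bad Y := by
  rintro ⟨M, hM, S, hS, hS1, h⟩
  have hq : Qd (fun z => H (M z)) := hH M.toLinearMap
  have hc : ∀ y, Cone (M.symm (lift0 y)) := fun y => by
    rw [hM, LinearEquiv.apply_symm_apply, QQ_lift0]
  obtain ⟨y, hy⟩ := hne
  apply hy
  have := hq.van hS hS1 (fun t ht => (h t ht).mono (by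
    rintro w ⟨y, hy, k, e⟩
    have : w = k • M.symm (lift0 y) := by
      apply M.injective; rw [e, _root_.map_smul, LinearEquiv.apply_symm_apply]
    have e2 := hq.homog k (hc y)
    simp only [LinearEquiv.apply_symm_apply, h0 y hy, mul_zero] at e2
    rw [this]; exact e2)) _ (hc y)
  simpa using this

theorem map_Bil (M : V5 →ₗ[ℝ] V5) (z : Fin 3 → Fin 3 → V5) (x y x' y' : ℝ) :
    M (Bil z x y x' y') = Bil (fun i j => M (z i j)) x y x' y' := by
  have : ∀ z : Fin 3 → Fin 3 → V5, Bil z x y x' y' = z 0 0 + x • z 1 0 + y • z 2 0 +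
      x' • (z 0 1 + x • z 1 1 + y • z 2 1) + y' • (z 0 2 + x • z 1 2 + y • z 2 2) := by
    intro z; funext k; simp [Bil]; ring
  simp only [this, map_add, _root_.map_smul]

theorem not_bad_of_bil {Y : Set E3} (F : V5 → ℝ)
    (hF : ∀ M : V5 →ₗ[ℝ] V5, Qt (fun z => F (M z))) (hne : ∃ y, F (lift0 y) ≠ 0)
    (z : Fin 3 → Fin 3 → V5)
    (hz : ∀ x y x' y' : ℝ, x ^ 2 + y ^ 2 = 1 → x' ^ 2 + y' ^ 2 = 1 →
      QQ (Bil z x y x' y') = 0 ∧ F (Bil z x y x' y') = 0)
    (hY : ∀ p ∈ Y, ∃ k x y x' y' : ℝ, x ^ 2 + y ^ 2 = 1 ∧ x' ^ 2 + y' ^ 2 = 1 ∧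
      lift0 p = k • Bil z x y x' y') : ¬ Bad Y := by
  rintro ⟨M, hM, S, hS, hS1, h⟩
  have hb : ∀ x y x' y', M (Bil (fun i j => M.symm (z i j)) x y x' y') = Bil z x y x' y' := by
    intro x y x' y'
    have := map_Bil M.toLinearMap (fun i j => M.symm (z i j)) x y x' y'
    simpa using this
  refine core (fun i j => M.symm (z i j)) (f := fun z => F (M z)) (hF M.toLinearMap) ?_ ?_ hS hS1
    (fun t ht => (h t ht).mono ?_)
  · obtain ⟨y, hy⟩ := hne
    exact ⟨M.symm (lift0 y), by rw [hM, LinearEquiv.apply_symm_apply, QQ_lift0], by simpa using hy⟩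
  · intro x y x' y' h1 h2
    rw [hM]
    simp only [hb]
    exact hz x y x' y' h1 h2
  · rintro w ⟨p, hp, k, e⟩
    obtain ⟨k', x, y, x', y', h1, h2, e'⟩ := hY p hp
    refine ⟨k * k', x, y, x', y', h1, h2, ?_⟩
    apply M.injective
    rw [e, e', _root_.map_smul, hb, smul_smul]

end Pool.Agent.H379Z.Chess
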