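import Pool.Agent.H379Z.Chess.Types

/-!
# Clifford translational surfaces
-/

namespace Pool.Agent.H379Z.Chess

def vC (X : V5) (i : Fin 3) : ℝ := X i.castSucc.castSucc

noncomputable def lC (m : E3) (X : V5) (i j k : Fin 3) : ℝ :=
  m i / 2 * (X 4 - X 3) + (m j * vC X k - m k * vC X j)

noncomputable def FC (n m : E3) (g d : ℝ) (X : V5) : ℝ :=
  (g * (lC m X 1 2 0 * X 2 + -1 * (lC m X 2 0 1 * X 1)) +
      d / 2 * ((X 3 + X 4) * (n 2 * X 1 - n 1 * X 2))) *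
    (g * (lC m X 1 2 0 * X 2 + -1 * (lC m X 2 0 1 * X 1)) +
      d / 2 * ((X 3 + X 4) * (n 2 * X 1 - n 1 * X 2))) +
  (g * (lC m X 2 0 1 * X 0 + -1 * (lC m X 0 1 2 * X 2)) +
      d / 2 * ((X 3 + X 4) * (n 0 * X 2 - n 2 * X 0))) *
    (g * (lC m X 2 0 1 * X 0 + -1 * (lC m X 0 1 2 * X 2)) +
      d / 2 * ((X 3 + X 4) * (n 0 * X 2 - n 2 * X 0))) +
  (g * (lC m X 0 1 2 * X 1 + -1 * (lC m X 1 2 0 * X 0)) +
      d / 2 * ((X 3 + X 4) * (n 1 * X 0 - n 0 * X 1))) *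
    (g * (lC m X 0 1 2 * X 1 + -1 * (lC m X 1 2 0 * X 0)) +
      d / 2 * ((X 3 + X 4) * (n 1 * X 0 - n 0 * X 1))) +
  -1 * ((lC m X 0 1 2 * (n 2 * X 1 - n 1 * X 2) + lC m X 1 2 0 * (n 0 * X 2 - n 2 * X 0) +
      lC m X 2 0 1 * (n 1 * X 0 - n 0 * X 1)) *
    (lC m X 0 1 2 * (n 2 * X 1 - n 1 * X 2) + lC m X 1 2 0 * (n 0 * X 2 - n 2 * X 0) +
      lC m X 2 0 1 * (n 1 * X 0 - n 0 * X 1)))

theorem qt_FC (n m : E3) (g d : ℝ) (M : V5 →ₗ[ℝ] V5) : Qt (fun z => FC n m g d (M z)) := by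
  have x := lin_M M
  have l : ∀ i j k, Lin (fun z => lC m (M z) i j k) := fun i j k =>
    (((x 4).sub (x 3)).smul _).add (((x _).smul _).sub ((x _).smul _))
  have w : ∀ (a b : ℝ) (i j : Fin 5), Lin (fun z => a * M z i - b * M z j) := fun a b i j =>
    ((x i).smul a).sub ((x j).smul b)
  have N : ∀ (a b : ℝ) (i j : Fin 5) i1 i2 i3 j1 j2 j3, Qd (fun z =>
      g * (lC m (M z) i1 i2 i3 * M z j + -1 * (lC m (M z) j1 j2 j3 * M z i)) +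
        d / 2 * ((M z 3 + M z 4) * (a * M z i - b * M z j))) :=
    fun a b i j i1 i2 i3 j1 j2 j3 =>
      ((((l _ _ _).mul (x j)).add (((l _ _ _).mul (x i)).smul _)).smul g).add
        ((((x 3).add (x 4)).mul (w a b i j)).smul _)
  have D := (((l 0 1 2).mul (w (n 2) (n 1) 1 2)).add ((l 1 2 0).mul (w (n 0) (n 2) 2 0))).add
    ((l 2 0 1).mul (w (n 1) (n 0) 0 1))
  exact ((((N _ _ _ _ _ _ _ _ _ _).mul (N _ _ _ _ _ _ _ _ _ _)).add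
    ((N _ _ _ _ _ _ _ _ _ _).mul (N _ _ _ _ _ _ _ _ _ _))).add
    ((N _ _ _ _ _ _ _ _ _ _).mul (N _ _ _ _ _ _ _ _ _ _))).add ((D.mul D).smul _)

def XC (p q : E3) : V5 :=
  ![p 1 * q 2 - p 2 * q 1, p 2 * q 0 - p 0 * q 2, p 0 * q 1 - p 1 * q 0,
    1 - (p 0 * q 0 + p 1 * q 1 + p 2 * q 2), 1 + (p 0 * q 0 + p 1 * q 1 + p 2 * q 2)]

theorem cramer {v0 v1 v2 n0 n1 n2 l0 l1 l2 p0 p1 p2 g e : ℝ} (hp : p0 ^ 2 + p1 ^ 2 + p2 ^ 2 = 1)
    (h1 : p0 * v0 + p1 * v1 + p2 * v2 = 0) (h2 : p0 * n0 + p1 * n1 + p2 * n2 = g)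
    (h3 : p0 * l0 + p1 * l1 + p2 * l2 = e) :
    (g * (l1 * v2 + -1 * (l2 * v1)) + e * (n2 * v1 - n1 * v2)) *
      (g * (l1 * v2 + -1 * (l2 * v1)) + e * (n2 * v1 - n1 * v2)) +
    (g * (l2 * v0 + -1 * (l0 * v2)) + e * (n0 * v2 - n2 * v0)) *
      (g * (l2 * v0 + -1 * (l0 * v2)) + e * (n0 * v2 - n2 * v0)) +
    (g * (l0 * v1 + -1 * (l1 * v0)) + e * (n1 * v0 - n0 * v1)) *
      (g * (l0 * v1 + -1 * (l1 * v0)) + e * (n1 * v0 - n0 * v1)) +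
    -1 * ((l0 * (n2 * v1 - n1 * v2) + l1 * (n0 * v2 - n2 * v0) + l2 * (n1 * v0 - n0 * v1)) *
      (l0 * (n2 * v1 - n1 * v2) + l1 * (n0 * v2 - n2 * v0) + l2 * (n1 * v0 - n0 * v1))) = 0 := by
  have e0 : g * (l1 * v2 + -1 * (l2 * v1)) + e * (n2 * v1 - n1 * v2) =
      (l0 * (n2 * v1 - n1 * v2) + l1 * (n0 * v2 - n2 * v0) + l2 * (n1 * v0 - n0 * v1)) * p0 := by
    rw [← h2, ← h3]; linear_combination (-(n1 * l2 - n2 * l1)) * h1
  have e1 : g * (l2 * v0 + -1 * (l0 * v2)) + e * (n0 * v2 - n2 * v0) =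
      (l0 * (n2 * v1 - n1 * v2) + l1 * (n0 * v2 - n2 * v0) + l2 * (n1 * v0 - n0 * v1)) * p1 := by
    rw [← h2, ← h3]; linear_combination (-(n2 * l0 - n0 * l2)) * h1
  have e2 : g * (l0 * v1 + -1 * (l1 * v0)) + e * (n1 * v0 - n0 * v1) =
      (l0 * (n2 * v1 - n1 * v2) + l1 * (n0 * v2 - n2 * v0) + l2 * (n1 * v0 - n0 * v1)) * p2 := by
    rw [← h2, ← h3]; linear_combination (-(n0 * l1 - n1 * l0)) * h1
  rw [e0, e1, e2]
  linear_combination (l0 * (n2 * v1 - n1 * v2) + l1 * (n0 * v2 - n2 * v0) +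
    l2 * (n1 * v0 - n0 * v1)) ^ 2 * hp

theorem FC_zero {n m p q : E3} {g d : ℝ} (hp : p 0 ^ 2 + p 1 ^ 2 + p 2 ^ 2 = 1)
    (h2 : p 0 * n 0 + p 1 * n 1 + p 2 * n 2 = g) (h4 : q 0 * m 0 + q 1 * m 1 + q 2 * m 2 = d) :
    FC n m g d (XC p q) = 0 := by
  have := cramer (v0 := XC p q 0) (v1 := XC p q 1) (v2 := XC p q 2) (l0 := lC m (XC p q) 0 1 2)
    (l1 := lC m (XC p q) 1 2 0) (l2 := lC m (XC p q) 2 0 1) (e := d / 2 * (XC p q 3 + XC p q 4))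
    hp (by simp [XC]; ring) h2 (by
      simp [XC, lC, vC]
      linear_combination h4 + (q 0 * m 0 + q 1 * m 1 + q 2 * m 2) * hp)
  simp only [FC]
  linear_combination this

theorem FC_ne {n m a : E3} (g d : ℝ) (hn : 0 < n 0 ^ 2 + n 1 ^ 2 + n 2 ^ 2)
    (hm : 0 < m 0 ^ 2 + m 1 ^ 2 + m 2 ^ 2) (ha : 0 < a 0 ^ 2 + a 1 ^ 2 + a 2 ^ 2)
    (han : a 0 * n 0 + a 1 * n 1 + a 2 * n 2 = 0) : ∃ y, FC n m g d (lift0 y) ≠ 0 := by
  by_contra hne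
  push Not at hne
  by_cases hk : (n 1 * m 2 - n 2 * m 1) ^ 2 + (n 2 * m 0 - n 0 * m 2) ^ 2 +
      (n 0 * m 1 - n 1 * m 0) ^ 2 = 0
  · have k0 : n 1 * m 2 - n 2 * m 1 = 0 := by
      nlinarith [sq_nonneg (n 1 * m 2 - n 2 * m 1), sq_nonneg (n 2 * m 0 - n 0 * m 2),
        sq_nonneg (n 0 * m 1 - n 1 * m 0)]
    have k1 : n 2 * m 0 - n 0 * m 2 = 0 := by
      nlinarith [sq_nonneg (n 1 * m 2 - n 2 * m 1), sq_nonneg (n 2 * m 0 - n 0 * m 2),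
        sq_nonneg (n 0 * m 1 - n 1 * m 0)]
    have k2 : n 0 * m 1 - n 1 * m 0 = 0 := by
      nlinarith [sq_nonneg (n 1 * m 2 - n 2 * m 1), sq_nonneg (n 2 * m 0 - n 0 * m 2),
        sq_nonneg (n 0 * m 1 - n 1 * m 0)]
    obtain ⟨u, hu⟩ : ∃ u : ℝ, u * (n 0 ^ 2 + n 1 ^ 2 + n 2 ^ 2) =
        n 0 * m 0 + n 1 * m 1 + n 2 * m 2 := ⟨_, div_mul_cancel₀ _ hn.ne'⟩
    have m0 : m 0 = u * n 0 := by
      apply mul_left_cancel₀ hn.ne'
      linear_combination (-n 0) * hu + n 2 * k1 - n 1 * k2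
    have m1 : m 1 = u * n 1 := by
      apply mul_left_cancel₀ hn.ne'
      linear_combination (-n 1) * hu + n 0 * k2 - n 2 * k0
    have m2 : m 2 = u * n 2 := by
      apply mul_left_cancel₀ hn.ne'
      linear_combination (-n 2) * hu + n 1 * k0 - n 0 * k1
    have hu0 : u ≠ 0 := by
      rintro rfl
      rw [m0, m1, m2] at hm
      simp at hm
    have key : ∀ t : ℝ, t ≠ 0 →
        ((d - g * u) + (d + g * u) * (t ^ 2 * (a 0 ^ 2 + a 1 ^ 2 + a 2 ^ 2))) ^ 2 / 4 +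
        ((g * u) ^ 2 - u ^ 2 * (n 0 ^ 2 + n 1 ^ 2 + n 2 ^ 2)) *
          (t ^ 2 * (a 0 ^ 2 + a 1 ^ 2 + a 2 ^ 2)) = 0 := by
      intro t ht
      have h := hne (t • a)
      have e : FC n m g d (lift0 (t • a)) =
          ((n 0 ^ 2 + n 1 ^ 2 + n 2 ^ 2) * (t ^ 2 * (a 0 ^ 2 + a 1 ^ 2 + a 2 ^ 2)) -
            (t * (a 0 * n 0 + a 1 * n 1 + a 2 * n 2)) ^ 2) *
          (((d - g * u) + (d + g * u) * (t ^ 2 * (a 0 ^ 2 + a 1 ^ 2 + a 2 ^ 2))) ^ 2 / 4 +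
          ((g * u) ^ 2 - u ^ 2 * (n 0 ^ 2 + n 1 ^ 2 + n 2 ^ 2)) *
            (t ^ 2 * (a 0 ^ 2 + a 1 ^ 2 + a 2 ^ 2)) +
            u ^ 2 * (t * (a 0 * n 0 + a 1 * n 1 + a 2 * n 2)) ^ 2) := by
        simp [FC, lC, vC, lift0, m0, m1, m2]; ring
      rw [e, han] at h
      have := (mul_eq_zero.1 h).resolve_left (by
        simp only [mul_zero, ne_eq, OfNat.ofNat_ne_zero, not_false_eq_true, zero_pow, sub_zero]
        positivity)
      linear_combination this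
    have a1 := key 1 one_ne_zero
    have a2 := key 2 two_ne_zero
    have a3 := key 3 three_ne_zero
    have hN : 0 < u ^ 2 * (n 0 ^ 2 + n 1 ^ 2 + n 2 ^ 2) := by positivity
    generalize u ^ 2 * (n 0 ^ 2 + n 1 ^ 2 + n 2 ^ 2) = N at *
    generalize a 0 ^ 2 + a 1 ^ 2 + a 2 ^ 2 = A at *
    generalize g * u = G at *
    have c2 : (d + G) ^ 2 * A ^ 2 = 0 := by linear_combination (5 * a1 - 8 * a2 + 3 * a3) / 30
    have c0 : (d - G) ^ 2 = 0 := by linear_combination 6 * a1 - 12 / 5 * a2 + 2 / 5 * a3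
    have d1 : d + G = 0 := by
      rcases mul_eq_zero.1 c2 with h | h
      · exact pow_eq_zero_iff two_ne_zero |>.1 h
      · exact absurd h (by positivity)
    have d2 : d - G = 0 := pow_eq_zero_iff two_ne_zero |>.1 c0
    have hG : G = 0 := by linarith
    rw [d1, d2, hG] at a1
    nlinarith [mul_pos hN ha]
  · have hK : 0 < (n 1 * m 2 - n 2 * m 1) ^ 2 + (n 2 * m 0 - n 0 * m 2) ^ 2 +
      (n 0 * m 1 - n 1 * m 0) ^ 2 := lt_of_le_of_ne (by positivity) (Ne.symm hk)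
    have e1 : FC n m g d (lift0 n) = g ^ 2 * (((n 1 * m 2 - n 2 * m 1) ^ 2 +
        (n 2 * m 0 - n 0 * m 2) ^ 2 + (n 0 * m 1 - n 1 * m 0) ^ 2) *
        (((1 - (n 0 ^ 2 + n 1 ^ 2 + n 2 ^ 2)) / 2) ^ 2 + (n 0 ^ 2 + n 1 ^ 2 + n 2 ^ 2))) := by
      simp [FC, lC, vC, lift0]; ring
    have e2 : FC n m g d (lift0 m) = d ^ 2 * (((n 1 * m 2 - n 2 * m 1) ^ 2 +
        (n 2 * m 0 - n 0 * m 2) ^ 2 + (n 0 * m 1 - n 1 * m 0) ^ 2) *
        ((1 + (m 0 ^ 2 + m 1 ^ 2 + m 2 ^ 2)) / 2) ^ 2) := by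
      simp [FC, lC, vC, lift0]; ring
    rw [hne] at e1 e2
    have g0 : g = 0 := pow_eq_zero_iff two_ne_zero |>.1
      ((mul_eq_zero.1 e1.symm).resolve_right (by positivity))
    have d0 : d = 0 := pow_eq_zero_iff two_ne_zero |>.1
      ((mul_eq_zero.1 e2.symm).resolve_right (by positivity))
    subst g0 d0
    have key : ∀ t : ℝ, t ≠ 0 → (1 - t ^ 2 * ((n 1 * m 2 - n 2 * m 1) ^ 2 +
        (n 2 * m 0 - n 0 * m 2) ^ 2 + (n 0 * m 1 - n 1 * m 0) ^ 2)) / 2 -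
        t * (n 0 * m 0 + n 1 * m 1 + n 2 * m 2) = 0 := by
      intro t ht
      have h := hne (t • cross n m)
      have e : FC n m 0 0 (lift0 (t • cross n m)) = -(t * ((n 1 * m 2 - n 2 * m 1) ^ 2 +
          (n 2 * m 0 - n 0 * m 2) ^ 2 + (n 0 * m 1 - n 1 * m 0) ^ 2) *
          ((1 - t ^ 2 * ((n 1 * m 2 - n 2 * m 1) ^ 2 +
          (n 2 * m 0 - n 0 * m 2) ^ 2 + (n 0 * m 1 - n 1 * m 0) ^ 2)) / 2 -
          t * (n 0 * m 0 + n 1 * m 1 + n 2 * m 2))) ^ 2 := by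
        simp [FC, lC, vC, lift0, cross]; ring
      rw [e, neg_eq_zero, pow_eq_zero_iff two_ne_zero] at h
      exact (mul_eq_zero.1 h).resolve_left (mul_ne_zero ht hk)
    have a1 := key 1 one_ne_zero
    have a2 := key (-1) (by norm_num)
    have a3 := key 2 two_ne_zero
    linarith

theorem sphere_sq {p : E3} (h : p ∈ Metric.sphere (0 : E3) 1) :
    p 0 ^ 2 + p 1 ^ 2 + p 2 ^ 2 = 1 := by
  have := dist_sq p 0
  rw [Metric.mem_sphere.1 h] at this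
  simpa using this.symm

theorem not_bad_C {Y : Set E3} (h : TypeC Y) : ¬ Bad Y := by
  obtain ⟨α, β, hα, hβ, sα, sβ, rfl⟩ := h
  obtain ⟨c, n, a, b, r, hr, hn, haa, hbb, hab, han, hα1, hα2⟩ := hα.param
  obtain ⟨c', m, a', b', r', hr', hm, haa', hbb', hab', -, hβ1, hβ2⟩ := hβ.param
  let X0 : E3 → E3 → V5 := fun p q => ![p 1 * q 2 - p 2 * q 1, p 2 * q 0 - p 0 * q 2,
    p 0 * q 1 - p 1 * q 0, -(p 0 * q 0 + p 1 * q 1 + p 2 * q 2),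
    p 0 * q 0 + p 1 * q 1 + p 2 * q 2]
  obtain ⟨z, hb⟩ : ∃ z, ∀ x y x' y' : ℝ,
      Bil z x y x' y' = XC (c + x • a + y • b) (c' + x' • a' + y' • b') := by
    refine ⟨![![XC c c', X0 c a', X0 c b'], ![X0 a c', X0 a a', X0 a b'],
      ![X0 b c', X0 b a', X0 b b']], fun x y x' y' => ?_⟩
    funext k
    fin_cases k <;> simp [Bil, XC, X0] <;> ring
  refine not_bad_of_bil (FC n m (c 0 * n 0 + c 1 * n 1 + c 2 * n 2)
    (c' 0 * m 0 + c' 1 * m 1 + c' 2 * m 2)) (qt_FC _ _ _ _)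
    (FC_ne _ _ hn hm (by rw [haa]; positivity) han) z (fun x y x' y' h1 h2 => ?_) ?_
  · rw [hb x y x' y']
    have hp := (hα2 _).2 ⟨x, y, h1, rfl⟩
    have hq := (hβ2 _).2 ⟨x', y', h2, rfl⟩
    generalize c + x • a + y • b = p at *
    generalize c' + x' • a' + y' • b' = q at *
    have sp := sphere_sq (sα hp)
    have sq := sphere_sq (sβ hq)
    refine ⟨?_, FC_zero sp (by linear_combination (hα1 p hp).2)
      (by linear_combination (hβ1 q hq).2)⟩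
    simp only [QQ, XC, Matrix.cons_val]
    linear_combination (q 0 ^ 2 + q 1 ^ 2 + q 2 ^ 2) * sp + sq
  · rintro _ ⟨p, hp, q, hq, hpq, rfl⟩
    have sp := sphere_sq (sα hp)
    have sq := sphere_sq (sβ hq)
    have hnorm : ‖p + q‖ ^ 2 = 2 * (1 + (p 0 * q 0 + p 1 * q 1 + p 2 * q 2)) := by
      have := dist_sq (p + q) 0
      rw [dist_zero_right] at this
      rw [this]; simp; linear_combination sp + sq
    have hw : 1 + (p 0 * q 0 + p 1 * q 1 + p 2 * q 2) ≠ 0 := by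
      intro h0
      rw [h0, mul_zero, pow_eq_zero_iff two_ne_zero, norm_eq_zero] at hnorm
      exact hpq hnorm
    have hl : lift0 ((2 / ‖p + q‖ ^ 2) • cross p q) =
        (1 + (p 0 * q 0 + p 1 * q 1 + p 2 * q 2))⁻¹ • XC p q := by
      have h2 : 2 / (2 * (1 + (p 0 * q 0 + p 1 * q 1 + p 2 * q 2))) =
          (1 + (p 0 * q 0 + p 1 * q 1 + p 2 * q 2))⁻¹ := by field_simp
      rw [hnorm, h2]
      funext k
      fin_cases k
      · simp [lift0, XC, cross]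
      · simp [lift0, XC, cross]
      · simp [lift0, XC, cross]
      · simp [lift0, XC, cross]; field_simp
        linear_combination (q 0 ^ 2 + q 1 ^ 2 + q 2 ^ 2) * sp + sq
      · simp [lift0, XC]; field_simp
    obtain ⟨x, y, h1, rfl⟩ := (hα2 p).1 hp
    obtain ⟨x', y', h2, rfl⟩ := (hβ2 q).1 hq
    exact ⟨_, x, y, x', y', h1, h2, by rw [hb x y x' y', hl]⟩

end Pool.Agent.H379Z.Chess
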