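import Pool.Agent.H379Z.Chess.Types

/-!
# Euclidean translational surfaces
-/

namespace Pool.Agent.H379Z.Chess

def yE (e : E3) (X : V5) (i : Fin 3) : ℝ := X i.castSucc.castSucc - e i * X 4

def hE (e : E3) (d : ℝ) (X : V5) : ℝ :=
  X 3 - (2 * e 0 * X 0 + 2 * e 1 * X 1 + 2 * e 2 * X 2) +
    (e 0 ^ 2 + e 1 ^ 2 + e 2 ^ 2 + d) * X 4

def nE (e n m : E3) (d : ℝ) (X : V5) (j k : Fin 3) : ℝ :=
  (m 0 * yE e X 0 + m 1 * yE e X 1 + m 2 * yE e X 2) *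
      (2 * n k * yE e X j - 2 * n j * yE e X k) +
    hE e d X * ((n j * m k - n k * m j) * X 4)

def dE (e n m : E3) (X : V5) : ℝ :=
  X 4 * (2 * (n 1 * m 2 - n 2 * m 1) * yE e X 0 + 2 * (n 2 * m 0 - n 0 * m 2) * yE e X 1 +
    2 * (n 0 * m 1 - n 1 * m 0) * yE e X 2)

def FE (e n m : E3) (r d : ℝ) (X : V5) : ℝ :=
  nE e n m d X 1 2 * nE e n m d X 1 2 + nE e n m d X 2 0 * nE e n m d X 2 0 +
    nE e n m d X 0 1 * nE e n m d X 0 1 + -r ^ 2 * (dE e n m X * dE e n m X)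

theorem qt_FE (e n m : E3) (r d : ℝ) (M : V5 →ₗ[ℝ] V5) : Qt (fun z => FE e n m r d (M z)) := by
  have y : ∀ i, Lin (fun z => yE e (M z) i) := fun i => (lin_M M _).sub ((lin_M M 4).smul _)
  have h : Lin (fun z => hE e d (M z)) :=
    ((lin_M M 3).sub ((((lin_M M 0).smul _).add ((lin_M M 1).smul _)).add
      ((lin_M M 2).smul _))).add ((lin_M M 4).smul _)
  have N : ∀ j k, Qd (fun z => nE e n m d (M z) j k) := fun j k =>
    (((((y 0).smul _).add ((y 1).smul _)).add ((y 2).smul _)).mul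
      (((y j).smul _).sub ((y k).smul _))).add (h.mul ((lin_M M 4).smul _))
  have D : Qd (fun z => dE e n m (M z)) :=
    (lin_M M 4).mul ((((y 0).smul _).add ((y 1).smul _)).add ((y 2).smul _))
  exact ((((N 1 2).mul (N 1 2)).add ((N 2 0).mul (N 2 0))).add ((N 0 1).mul (N 0 1))).add
    ((D.mul D).smul _)

theorem FE_zero {c c' n m p q : E3} {r r' : ℝ}
    (h1 : (p 0 - c 0) ^ 2 + (p 1 - c 1) ^ 2 + (p 2 - c 2) ^ 2 = r ^ 2)
    (h2 : (p 0 - c 0) * n 0 + (p 1 - c 1) * n 1 + (p 2 - c 2) * n 2 = 0)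
    (h3 : (q 0 - c' 0) ^ 2 + (q 1 - c' 1) ^ 2 + (q 2 - c' 2) ^ 2 = r' ^ 2)
    (h4 : (q 0 - c' 0) * m 0 + (q 1 - c' 1) * m 1 + (q 2 - c' 2) * m 2 = 0) :
    FE (c + c') n m r (r ^ 2 - r' ^ 2) (lift0 (p + q)) = 0 := by
  have y0 : yE (c + c') (lift0 (p + q)) 0 = (p 0 - c 0) + (q 0 - c' 0) := by
    simp [yE, lift0]; ring
  have y1 : yE (c + c') (lift0 (p + q)) 1 = (p 1 - c 1) + (q 1 - c' 1) := by
    simp [yE, lift0]; ring
  have y2 : yE (c + c') (lift0 (p + q)) 2 = (p 2 - c 2) + (q 2 - c' 2) := by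
    simp [yE, lift0]; ring
  have x4 : lift0 (p + q) 4 = 1 := by simp [lift0]
  have hh : hE (c + c') (r ^ 2 - r' ^ 2) (lift0 (p + q)) =
      ((p 0 - c 0) + (q 0 - c' 0)) ^ 2 + ((p 1 - c 1) + (q 1 - c' 1)) ^ 2 +
      ((p 2 - c 2) + (q 2 - c' 2)) ^ 2 + (r ^ 2 - r' ^ 2) := by
    simp [hE, lift0]; ring
  generalize p 0 - c 0 = P0 at *
  generalize p 1 - c 1 = P1 at *
  generalize p 2 - c 2 = P2 at *
  generalize q 0 - c' 0 = Q0 at *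
  generalize q 1 - c' 1 = Q1 at *
  generalize q 2 - c' 2 = Q2 at *
  have n0 : nE (c + c') n m (r ^ 2 - r' ^ 2) (lift0 (p + q)) 1 2 =
      dE (c + c') n m (lift0 (p + q)) * P0 := by
    simp only [nE, dE, y0, y1, y2, x4, hh]
    linear_combination (-2 * (m 1 * (P2 + Q2) - m 2 * (P1 + Q1))) * h2 +
      (2 * n 2 * (P1 + Q1) - 2 * n 1 * (P2 + Q2)) * h4 + (n 1 * m 2 - n 2 * m 1) * (h3 - h1)
  have n1 : nE (c + c') n m (r ^ 2 - r' ^ 2) (lift0 (p + q)) 2 0 =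
      dE (c + c') n m (lift0 (p + q)) * P1 := by
    simp only [nE, dE, y0, y1, y2, x4, hh]
    linear_combination (-2 * (m 2 * (P0 + Q0) - m 0 * (P2 + Q2))) * h2 +
      (2 * n 0 * (P2 + Q2) - 2 * n 2 * (P0 + Q0)) * h4 + (n 2 * m 0 - n 0 * m 2) * (h3 - h1)
  have n2 : nE (c + c') n m (r ^ 2 - r' ^ 2) (lift0 (p + q)) 0 1 =
      dE (c + c') n m (lift0 (p + q)) * P2 := by
    simp only [nE, dE, y0, y1, y2, x4, hh]
    linear_combination (-2 * (m 0 * (P1 + Q1) - m 1 * (P0 + Q0))) * h2 +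
      (2 * n 1 * (P0 + Q0) - 2 * n 0 * (P1 + Q1)) * h4 + (n 0 * m 1 - n 1 * m 0) * (h3 - h1)
  simp only [FE, n0, n1, n2]
  linear_combination dE (c + c') n m (lift0 (p + q)) ^ 2 * h1

theorem FE_ne (e n m : E3) (r d : ℝ)
    (hk : (n 1 * m 2 - n 2 * m 1) ^ 2 + (n 2 * m 0 - n 0 * m 2) ^ 2 +
      (n 0 * m 1 - n 1 * m 0) ^ 2 ≠ 0) : ∃ y, FE e n m r d (lift0 y) ≠ 0 := by
  by_contra hn
  push Not at hn
  have key : ∀ t : ℝ, FE e n m r d (lift0 (e + t • cross n m)) =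
      ((n 1 * m 2 - n 2 * m 1) ^ 2 + (n 2 * m 0 - n 0 * m 2) ^ 2 + (n 0 * m 1 - n 1 * m 0) ^ 2) *
      ((t ^ 2 * ((n 1 * m 2 - n 2 * m 1) ^ 2 + (n 2 * m 0 - n 0 * m 2) ^ 2 +
        (n 0 * m 1 - n 1 * m 0) ^ 2) + d) ^ 2 - 4 * r ^ 2 * t ^ 2 *
        ((n 1 * m 2 - n 2 * m 1) ^ 2 + (n 2 * m 0 - n 0 * m 2) ^ 2 +
        (n 0 * m 1 - n 1 * m 0) ^ 2)) := by
    intro t
    have y0 : yE e (lift0 (e + t • cross n m)) 0 = t * (n 1 * m 2 - n 2 * m 1) := by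
      simp [yE, lift0, cross]
    have y1 : yE e (lift0 (e + t • cross n m)) 1 = t * (n 2 * m 0 - n 0 * m 2) := by
      simp [yE, lift0, cross]
    have y2 : yE e (lift0 (e + t • cross n m)) 2 = t * (n 0 * m 1 - n 1 * m 0) := by
      simp [yE, lift0, cross]
    have x4 : lift0 (e + t • cross n m) 4 = 1 := by simp [lift0]
    have hh : hE e d (lift0 (e + t • cross n m)) =
        t ^ 2 * ((n 1 * m 2 - n 2 * m 1) ^ 2 + (n 2 * m 0 - n 0 * m 2) ^ 2 +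
        (n 0 * m 1 - n 1 * m 0) ^ 2) + d := by
      simp [hE, lift0, cross]; ring
    simp only [FE, nE, dE, y0, y1, y2, x4, hh]
    ring
  have a0 := key 0
  have a1 := key 1
  have a2 := key 2
  rw [hn] at a0 a1 a2
  generalize (n 1 * m 2 - n 2 * m 1) ^ 2 + (n 2 * m 0 - n 0 * m 2) ^ 2 +
      (n 0 * m 1 - n 1 * m 0) ^ 2 = K at *
  apply pow_ne_zero 3 hk
  linear_combination (-3 * a0 + 4 * a1 - a2) / 12

theorem not_bad_E {Y : Set E3} (h : TypeE Y) : ¬ Bad Y := by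
  obtain ⟨α, β, hα, hβ, rfl⟩ := h
  obtain ⟨c, n, a, b, r, hr, hn, haa, hbb, hab, -, hα1, hα2⟩ := hα.param
  obtain ⟨c', m, a', b', r', hr', hm, haa', hbb', hab', -, hβ1, hβ2⟩ := hβ.param
  by_cases hk : (n 1 * m 2 - n 2 * m 1) ^ 2 + (n 2 * m 0 - n 0 * m 2) ^ 2 +
      (n 0 * m 1 - n 1 * m 0) ^ 2 = 0
  · have k0 : n 1 * m 2 - n 2 * m 1 = 0 := by
      nlinarith [sq_nonneg (n 1 * m 2 - n 2 * m 1), sq_nonneg (n 2 * m 0 - n 0 * m 2),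
        sq_nonneg (n 0 * m 1 - n 1 * m 0)]
    have k1 : n 2 * m 0 - n 0 * m 2 = 0 := by
      nlinarith [sq_nonneg (n 1 * m 2 - n 2 * m 1), sq_nonneg (n 2 * m 0 - n 0 * m 2),
        sq_nonneg (n 0 * m 1 - n 1 * m 0)]
    have k2 : n 0 * m 1 - n 1 * m 0 = 0 := by
      nlinarith [sq_nonneg (n 1 * m 2 - n 2 * m 1), sq_nonneg (n 2 * m 0 - n 0 * m 2),
        sq_nonneg (n 0 * m 1 - n 1 * m 0)]
    refine not_bad_of_quad
      (fun X => X 4 * (n 0 * yE (c + c') X 0 + n 1 * yE (c + c') X 1 + n 2 * yE (c + c') X 2))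
      (fun M => ?_) ?_ ⟨c + c' + n, ?_⟩
    · have y : ∀ i, Lin (fun z => yE (c + c') (M z) i) :=
        fun i => (lin_M M _).sub ((lin_M M 4).smul _)
      exact (lin_M M 4).mul ((((y 0).smul _).add ((y 1).smul _)).add ((y 2).smul _))
    · rintro y ⟨p, hp, q, hq, rfl⟩
      have h2 := (hα1 p hp).2
      have h4 := (hβ1 q hq).2
      have h5 : (q 0 - c' 0) * n 0 + (q 1 - c' 1) * n 1 + (q 2 - c' 2) * n 2 = 0 := by
        apply mul_left_cancel₀ hm.ne'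
        linear_combination (n 0 * m 0 + n 1 * m 1 + n 2 * m 2) * h4 +
          ((q 1 - c' 1) * m 2 - (q 2 - c' 2) * m 1) * k0 +
          ((q 2 - c' 2) * m 0 - (q 0 - c' 0) * m 2) * k1 +
          ((q 0 - c' 0) * m 1 - (q 1 - c' 1) * m 0) * k2
      simp [yE, lift0]
      linear_combination h2 + h5
    · simp [yE, lift0]
      intro h
      apply hn.ne'
      linear_combination h
  have hb : ∀ x y x' y' : ℝ, x ^ 2 + y ^ 2 = 1 → x' ^ 2 + y' ^ 2 = 1 →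
      Bil ![![![c 0 + c' 0, c 1 + c' 1, c 2 + c' 2,
          (c 0 + c' 0) ^ 2 + (c 1 + c' 1) ^ 2 + (c 2 + c' 2) ^ 2 + r ^ 2 + r' ^ 2, 1],
        ![a' 0, a' 1, a' 2, 2 * (a' 0 * (c 0 + c' 0) + a' 1 * (c 1 + c' 1) + a' 2 * (c 2 + c' 2)), 0],
        ![b' 0, b' 1, b' 2, 2 * (b' 0 * (c 0 + c' 0) + b' 1 * (c 1 + c' 1) + b' 2 * (c 2 + c' 2)), 0]],
      ![![a 0, a 1, a 2, 2 * (a 0 * (c 0 + c' 0) + a 1 * (c 1 + c' 1) + a 2 * (c 2 + c' 2)), 0],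
        ![0, 0, 0, 2 * (a 0 * a' 0 + a 1 * a' 1 + a 2 * a' 2), 0],
        ![0, 0, 0, 2 * (a 0 * b' 0 + a 1 * b' 1 + a 2 * b' 2), 0]],
      ![![b 0, b 1, b 2, 2 * (b 0 * (c 0 + c' 0) + b 1 * (c 1 + c' 1) + b 2 * (c 2 + c' 2)), 0],
        ![0, 0, 0, 2 * (b 0 * a' 0 + b 1 * a' 1 + b 2 * a' 2), 0],
        ![0, 0, 0, 2 * (b 0 * b' 0 + b 1 * b' 1 + b 2 * b' 2), 0]]] x y x' y' =
      lift0 ((c + x • a + y • b) + (c' + x' • a' + y' • b')) := by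
    intro x y x' y' h1 h2
    funext k
    fin_cases k
    · simp [Bil, lift0]; ring
    · simp [Bil, lift0]; ring
    · simp [Bil, lift0]; ring
    · simp [Bil, lift0]
      linear_combination (-r ^ 2) * h1 - r' ^ 2 * h2 - x ^ 2 * haa - y ^ 2 * hbb -
        2 * x * y * hab - x' ^ 2 * haa' - y' ^ 2 * hbb' - 2 * x' * y' * hab'
    · simp [Bil, lift0]
  obtain ⟨z, hb⟩ : ∃ z, ∀ x y x' y' : ℝ, x ^ 2 + y ^ 2 = 1 → x' ^ 2 + y' ^ 2 = 1 →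
      Bil z x y x' y' = lift0 ((c + x • a + y • b) + (c' + x' • a' + y' • b')) := ⟨_, hb⟩
  refine not_bad_of_bil (FE (c + c') n m r (r ^ 2 - r' ^ 2)) (qt_FE _ _ _ _ _)
    (FE_ne _ _ _ _ _ hk) z (fun x y x' y' h1 h2 => ?_) ?_
  · rw [hb x y x' y' h1 h2]
    have hp := hα1 _ ((hα2 _).2 ⟨x, y, h1, rfl⟩)
    have hq := hβ1 _ ((hβ2 _).2 ⟨x', y', h2, rfl⟩)
    exact ⟨QQ_lift0 _, FE_zero hp.1 hp.2 hq.1 hq.2⟩
  · rintro _ ⟨p, hp, q, hq, rfl⟩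
    obtain ⟨x, y, h1, rfl⟩ := (hα2 p).1 hp
    obtain ⟨x', y', h2, rfl⟩ := (hβ2 q).1 hq
    exact ⟨1, x, y, x', y', h1, h2, by rw [hb x y x' y' h1 h2, one_smul]⟩

end Pool.Agent.H379Z.Chess
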