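import Pool.Agent.H379Z.Chess.Mob

/-!
# None of the three model surfaces contains the nine arcs
-/

namespace Pool.Agent.H379Z.Chess

theorem mem_circle {c n x : E3} {r : ℝ} (hr : 0 < r) :
    (dist x c = r ∧ inner ℝ (x - c) n = 0) ↔
      ((x 0 - c 0) ^ 2 + (x 1 - c 1) ^ 2 + (x 2 - c 2) ^ 2 = r ^ 2 ∧
        (x 0 - c 0) * n 0 + (x 1 - c 1) * n 1 + (x 2 - c 2) * n 2 = 0) := by
  apply and_congr
  · rw [← dist_sq, pow_left_inj₀ dist_nonneg hr.le two_ne_zero]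
  · simp only [PiLp.inner_apply, Fin.sum_univ_three, PiLp.sub_apply, RCLike.inner_apply,
      conj_trivial]
    constructor <;> intro h <;> linear_combination h

theorem nsq_pos {n : E3} (hn : n ≠ 0) : 0 < n 0 ^ 2 + n 1 ^ 2 + n 2 ^ 2 := by
  by_contra h
  apply hn
  have h0 : n 0 = 0 := by nlinarith [sq_nonneg (n 0), sq_nonneg (n 1), sq_nonneg (n 2)]
  have h1 : n 1 = 0 := by nlinarith [sq_nonneg (n 0), sq_nonneg (n 1), sq_nonneg (n 2)]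
  have h2 : n 2 = 0 := by nlinarith [sq_nonneg (n 0), sq_nonneg (n 1), sq_nonneg (n 2)]
  ext i; fin_cases i <;> simp [h0, h1, h2]

theorem frame {n0 n1 n2 : ℝ} (hn : 0 < n0 ^ 2 + n1 ^ 2 + n2 ^ 2) :
    ∃ u0 u1 u2 v0 v1 v2 : ℝ, u0 ^ 2 + u1 ^ 2 + u2 ^ 2 = 1 ∧ v0 ^ 2 + v1 ^ 2 + v2 ^ 2 = 1 ∧
      u0 * v0 + u1 * v1 + u2 * v2 = 0 ∧ u0 * n0 + u1 * n1 + u2 * n2 = 0 ∧
      v0 * n0 + v1 * n1 + v2 * n2 = 0 ∧ ∀ w0 w1 w2 : ℝ, w0 * n0 + w1 * n1 + w2 * n2 = 0 →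
        ∃ x y : ℝ, w0 = x * u0 + y * v0 ∧ w1 = x * u1 + y * v1 ∧ w2 = x * u2 + y * v2 := by
  obtain ⟨u0, u1, u2, hu, hun⟩ : ∃ u0 u1 u2 : ℝ, u0 ^ 2 + u1 ^ 2 + u2 ^ 2 = 1 ∧
      u0 * n0 + u1 * n1 + u2 * n2 = 0 := by
    by_cases h : n0 ^ 2 + n1 ^ 2 = 0
    · have h0 : n0 = 0 := by nlinarith
      exact ⟨1, 0, 0, by norm_num, by simp [h0]⟩
    · have hp : 0 < n0 ^ 2 + n1 ^ 2 := lt_of_le_of_ne (by positivity) (Ne.symm h)
      obtain ⟨A, hA⟩ : ∃ A : ℝ, A ^ 2 * (n0 ^ 2 + n1 ^ 2) = 1 :=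
        ⟨(Real.sqrt (n0 ^ 2 + n1 ^ 2))⁻¹, by
          rw [inv_pow, Real.sq_sqrt hp.le, inv_mul_cancel₀ h]⟩
      exact ⟨-A * n1, A * n0, 0, by linear_combination hA, by ring⟩
  obtain ⟨A, hA⟩ : ∃ A : ℝ, A ^ 2 * (n0 ^ 2 + n1 ^ 2 + n2 ^ 2) = 1 :=
    ⟨(Real.sqrt (n0 ^ 2 + n1 ^ 2 + n2 ^ 2))⁻¹, by
      rw [inv_pow, Real.sq_sqrt hn.le, inv_mul_cancel₀ hn.ne']⟩
  refine ⟨u0, u1, u2, A * (n1 * u2 - n2 * u1), A * (n2 * u0 - n0 * u2), A * (n0 * u1 - n1 * u0),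
    hu, ?_, by ring, hun, by ring, fun w0 w1 w2 hw => ⟨w0 * u0 + w1 * u1 + w2 * u2,
      A * (w0 * (n1 * u2 - n2 * u1) + w1 * (n2 * u0 - n0 * u2) + w2 * (n0 * u1 - n1 * u0)),
      ?_, ?_, ?_⟩⟩
  · linear_combination hA + A ^ 2 * (n0 ^ 2 + n1 ^ 2 + n2 ^ 2) * hu -
      A ^ 2 * (u0 * n0 + u1 * n1 + u2 * n2) * hun
  · linear_combination (-(w0 - (w0 * u0 + w1 * u1 + w2 * u2) * u0)) * hA -
      A ^ 2 * (n0 ^ 2 + n1 ^ 2 + n2 ^ 2) * w0 * hu +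
      A ^ 2 * ((u0 ^ 2 + u1 ^ 2 + u2 ^ 2) * n0 - (u0 * n0 + u1 * n1 + u2 * n2) * u0) * hw +
      A ^ 2 * ((u0 * n0 + u1 * n1 + u2 * n2) * w0 - (w0 * u0 + w1 * u1 + w2 * u2) * n0) * hun
  · linear_combination (-(w1 - (w0 * u0 + w1 * u1 + w2 * u2) * u1)) * hA -
      A ^ 2 * (n0 ^ 2 + n1 ^ 2 + n2 ^ 2) * w1 * hu +
      A ^ 2 * ((u0 ^ 2 + u1 ^ 2 + u2 ^ 2) * n1 - (u0 * n0 + u1 * n1 + u2 * n2) * u1) * hw +
      A ^ 2 * ((u0 * n0 + u1 * n1 + u2 * n2) * w1 - (w0 * u0 + w1 * u1 + w2 * u2) * n1) * hun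
  · linear_combination (-(w2 - (w0 * u0 + w1 * u1 + w2 * u2) * u2)) * hA -
      A ^ 2 * (n0 ^ 2 + n1 ^ 2 + n2 ^ 2) * w2 * hu +
      A ^ 2 * ((u0 ^ 2 + u1 ^ 2 + u2 ^ 2) * n2 - (u0 * n0 + u1 * n1 + u2 * n2) * u2) * hw +
      A ^ 2 * ((u0 * n0 + u1 * n1 + u2 * n2) * w2 - (w0 * u0 + w1 * u1 + w2 * u2) * n2) * hun

/-- A circle in coordinates. -/
theorem IsCircle.param {α : Set E3} (h : IsCircle α) :
    ∃ (c n a b : E3) (r : ℝ), 0 < r ∧ 0 < n 0 ^ 2 + n 1 ^ 2 + n 2 ^ 2 ∧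
      a 0 ^ 2 + a 1 ^ 2 + a 2 ^ 2 = r ^ 2 ∧ b 0 ^ 2 + b 1 ^ 2 + b 2 ^ 2 = r ^ 2 ∧
      a 0 * b 0 + a 1 * b 1 + a 2 * b 2 = 0 ∧ a 0 * n 0 + a 1 * n 1 + a 2 * n 2 = 0 ∧
      (∀ p ∈ α, (p 0 - c 0) ^ 2 + (p 1 - c 1) ^ 2 + (p 2 - c 2) ^ 2 = r ^ 2 ∧
        (p 0 - c 0) * n 0 + (p 1 - c 1) * n 1 + (p 2 - c 2) * n 2 = 0) ∧
      ∀ p, p ∈ α ↔ ∃ x y : ℝ, x ^ 2 + y ^ 2 = 1 ∧ p = c + x • a + y • b := by
  obtain ⟨c, n, r, hn, hr, rfl⟩ := h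
  obtain ⟨u0, u1, u2, v0, v1, v2, hu, hv, huv, hun, hvn, hw⟩ := frame (nsq_pos hn)
  refine ⟨c, n, !₂[r * u0, r * u1, r * u2], !₂[r * v0, r * v1, r * v2], r, hr, nsq_pos hn,
    ?_, ?_, ?_, ?_, fun p hp => (mem_circle hr).1 hp, fun p => ?_⟩
  · simp; linear_combination r ^ 2 * hu
  · simp; linear_combination r ^ 2 * hv
  · simp; linear_combination r ^ 2 * huv
  · simp; linear_combination r * hun
  · rw [Set.mem_setOf_eq, mem_circle hr]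
    constructor
    · rintro ⟨h1, h2⟩
      obtain ⟨x, y, e0, e1, e2⟩ := hw _ _ _ h2
      refine ⟨x / r, y / r, ?_, ?_⟩
      · field_simp
        rw [e0, e1, e2] at h1
        linear_combination h1 - x ^ 2 * hu - y ^ 2 * hv - 2 * x * y * huv
      · ext i; fin_cases i <;> simp <;> field_simp <;> linarith
    · rintro ⟨x, y, h, rfl⟩
      simp
      constructor
      · linear_combination r ^ 2 * h + r ^ 2 * x ^ 2 * hu + r ^ 2 * y ^ 2 * hv +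
          2 * r ^ 2 * x * y * huv
      · linear_combination r * x * hun + r * y * hvn

theorem Qd.zero : Qd (fun _ => 0) :=
  (((lin_coord 0).mul (lin_coord 0)).smul 0).congr (fun z => by simp)

theorem Qd.sum {ι : Type*} (s : Finset ι) (f : ι → V5 → ℝ) (h : ∀ i ∈ s, Qd (f i)) :
    Qd (fun z => ∑ i ∈ s, f i z) := by
  classical
  induction s using Finset.induction_on with
  | empty => simpa using Qd.zero
  | insert a s ha ih =>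
    simp only [Finset.sum_insert ha]
    exact (h a (Finset.mem_insert_self _ _)).add (ih fun i hi => h i (Finset.mem_insert_of_mem hi))

theorem qd_mono {m0 m1 m2 m3 m4 : V5 → ℝ} (h0 : Lin m0) (h1 : Lin m1) (h2 : Lin m2) (h3 : Lin m3)
    (h4 : Lin m4) (a b c d : ℕ) (h : a + b + c + d ≤ 2) :
    Qd (fun z => m4 z ^ (2 - (a + b + c + d)) * (m0 z ^ a * m1 z ^ b * m2 z ^ c * m3 z ^ d)) := by
  have ha : a ≤ 2 := by omega
  have hb : b ≤ 2 := by omega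
  have hc : c ≤ 2 := by omega
  have hd : d ≤ 2 := by omega
  interval_cases a <;> interval_cases b <;> interval_cases c <;> interval_cases d <;>
    first
    | omega
    | exact (h4.mul h4).congr (fun z => by ring1)
    | exact (h4.mul h0).congr (fun z => by ring1)
    | exact (h4.mul h1).congr (fun z => by ring1)
    | exact (h4.mul h2).congr (fun z => by ring1)
    | exact (h4.mul h3).congr (fun z => by ring1)
    | exact (h0.mul h0).congr (fun z => by ring1)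
    | exact (h0.mul h1).congr (fun z => by ring1)
    | exact (h0.mul h2).congr (fun z => by ring1)
    | exact (h0.mul h3).congr (fun z => by ring1)
    | exact (h1.mul h1).congr (fun z => by ring1)
    | exact (h1.mul h2).congr (fun z => by ring1)
    | exact (h1.mul h3).congr (fun z => by ring1)
    | exact (h2.mul h2).congr (fun z => by ring1)
    | exact (h2.mul h3).congr (fun z => by ring1)
    | exact (h3.mul h3).congr (fun z => by ring1)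

theorem lin_M (M : V5 →ₗ[ℝ] V5) (k : Fin 5) : Lin (fun z => M z k) := by
  fin_cases k
  · simpa using lin5 M 1 0 0 0 0
  · simpa using lin5 M 0 1 0 0 0
  · simpa using lin5 M 0 0 1 0 0
  · simpa using lin5 M 0 0 0 1 0
  · simpa using lin5 M 0 0 0 0 1

theorem not_bad_D {Y : Set E3} (h : TypeD Y) : ¬ Bad Y := by
  obtain ⟨hne, Q, hQ, rfl⟩ := h
  have hQ2 : Q.totalDegree ≤ 2 := by omega
  let H : V5 → ℝ := fun X => ∑ d ∈ Q.support, Q.coeff d *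
    (X 4 ^ (2 - (d 0 + d 1 + d 2 + d 3)) * (X 0 ^ d 0 * X 1 ^ d 1 * X 2 ^ d 2 * X 3 ^ d 3))
  have hH : ∀ p : E3, H (lift0 p) =
      MvPolynomial.eval ![p 0, p 1, p 2, p 0 ^ 2 + p 1 ^ 2 + p 2 ^ 2] Q := by
    intro p
    rw [MvPolynomial.eval_eq']
    simp [H, lift0, Fin.prod_univ_four]
  refine not_bad_of_quad H (fun M => Qd.sum _ _ fun d hd => Qd.smul _ ?_)
    (fun y hy => by rw [hH]; exact hy) ?_
  · refine qd_mono (lin_M M 0) (lin_M M 1) (lin_M M 2) (lin_M M 3) (lin_M M 4) _ _ _ _ ?_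
    have := (MvPolynomial.le_totalDegree hd).trans hQ2
    rwa [Finsupp.sum_fintype _ _ (fun _ => rfl), Fin.sum_univ_four] at this
  · by_contra hn
    push Not at hn
    exact hne (Set.eq_univ_of_forall fun p => by rw [Set.mem_setOf_eq, ← hH]; exact hn p)

end Pool.Agent.H379Z.Chess
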